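import Pool.Agent.H97.NR.Defs

/-! Statements of the counting modules of project NR. -/

set_option linter.unusedVariables false

namespace Pool.NR

/-- Number of elements with a property. -/
noncomputable abbrev cnt {α : Type*} (P : α → Prop) : ℕ := Nat.card {x : α // P x}

def NKRStmt : Prop := ∀ (p : ℕ) [Fact p.Prime] (k : ℕ), 0 < k →
  cnt (fun s : ZMod p => KRep p k s) = Nat.gcd k (p - 1)

def NPTStmt : Prop := ∀ (p : ℕ) [Fact p.Prime],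
  cnt (fun a : ZMod p => Bit a) = 2 ∧
  cnt (fun x : ZMod p × ZMod p => Pt x.1 x.2) = p + 1 ∧
  cnt (fun x : ZMod p × ZMod p => Pt0 x.1 x.2) = p + 2 ∧
  cnt (fun x : ZMod p × ZMod p => Pt x.1 x.2 ∧ x.1 + x.2 ≠ 0) = p ∧
  (p ≠ 3 → cnt (fun x : (ZMod p × ZMod p) × ZMod p => Pt x.1.1 x.1.2 ∧
    3 * x.2 = x.1.1 + x.1.2) = p + 1) ∧
  (p = 3 → cnt (fun x : (ZMod p × ZMod p) × ZMod p => Pt x.1.1 x.1.2 ∧
    3 * x.2 = x.1.1 + x.1.2) = 3) ∧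
  (p ≠ 2 → cnt (fun x : ZMod p => x ≠ 1 ∧ x ≠ -1) + 2 = p ∧
    cnt (fun x : ZMod p => x ≠ 0 ∧ x ≠ 1 ∧ x ≠ -1) + 3 = p ∧
    cnt (fun x : ZMod p => x ≠ 0 ∧ 4 * x ≠ 1) + 2 = p) ∧
  (∀ a : ZMod p, cnt (fun x : ZMod p => x ≠ a) + 1 = p) ∧
  cnt (fun a : ZMod p => Sq0 a) = if p = 2 then 2 else 3

def NNRStmt : Prop := ∀ (p : ℕ) [Fact p.Prime] (s : ZMod p), p ≠ 2 → KRep p 2 s → s ≠ 1 →
  cnt (fun x : ZMod p × ZMod p => NRep p s x.1 x.2) = p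

def N2SStmt : Prop := ∀ (p : ℕ) [Fact p.Prime],
  cnt (NF2aS (p := p)) = if p = 2 then 3 else 4

def N2MStmt : Prop := ∀ (p : ℕ) [Fact p.Prime], cnt (NF2aM (p := p)) = p

def N2EStmt : Prop := ∀ (p : ℕ) [Fact p.Prime],
  cnt (NF2aE (p := p)) = if p = 2 then 2 else p + 2

def N2NStmt : Prop := ∀ (p : ℕ) [Fact p.Prime],
  cnt (NF2aN (p := p)) = if p = 2 then 3 else 2

def N2AStmt : Prop := ∀ (p : ℕ) [Fact p.Prime],
  cnt (NF2a (p := p)) = if p = 2 then 11 else 2 * p + 9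

def M2OStmt : Prop := ∀ (p : ℕ) [Fact p.Prime], cnt (NF2bO (p := p)) = p + 5

def M2DStmt : Prop := ∀ (p : ℕ) [Fact p.Prime],
  cnt (NF2bD (p := p)) = if p = 2 then 9 else 2 * p + 7

def M2EStmt : Prop := ∀ (p : ℕ) [Fact p.Prime], cnt (NF2bE (p := p)) = p + 6

def M2JStmt : Prop := ∀ (p : ℕ) [Fact p.Prime], cnt (NF2bJ (p := p)) = 4

def M2MStmt : Prop := ∀ (p : ℕ) [Fact p.Prime],
  cnt (NF2bM (p := p)) + (if p = 2 then 0 else 10) = if p = 2 then 4 else p ^ 2 + 2 * p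

def M2KStmt : Prop := ∀ (p : ℕ) [Fact p.Prime],
  cnt (NF2bK (p := p)) = if p = 2 then 0 else 2 * p + 3

def M2SStmt : Prop := ∀ (p : ℕ) [Fact p.Prime],
  cnt (NF2bS (p := p)) = if p = 2 then 6 else 2 * p + 6

def M2TStmt : Prop := ∀ (p : ℕ) [Fact p.Prime],
  cnt (NF2b (p := p)) = if p = 2 then 38 else p ^ 2 + 10 * p + 21

def L3CStmt : Prop := ∀ (p : ℕ) [Fact p.Prime], cnt (NF3aC (p := p)) = 3

def L3XStmt : Prop := ∀ (p : ℕ) [Fact p.Prime], cnt (NF3aX (p := p)) = p + 1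

def L3HStmt : Prop := ∀ (p : ℕ) [Fact p.Prime],
  cnt (NF3aH (p := p)) = if p = 2 then 2 else p + 1

def L3NStmt : Prop := ∀ (p : ℕ) [Fact p.Prime], cnt (NF3aN (p := p)) = p

def L3TStmt : Prop := ∀ (p : ℕ) [Fact p.Prime],
  cnt (NF3a (p := p)) = if p = 2 then 10 else 3 * p + 5

def K3AStmt : Prop := ∀ (p : ℕ) [Fact p.Prime], cnt (NF3bA1 (p := p)) = p ^ 3 + p ^ 2 + 2 * p

def K3GStmt : Prop := ∀ (p : ℕ) [Fact p.Prime],
  cnt (NF3bA2 (p := p)) = if p = 2 then 16 else p ^ 2 + 4 * p + 9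

def K3BStmt : Prop := ∀ (p : ℕ) [Fact p.Prime],
  cnt (NF3bB (p := p)) = if p = 2 then 16 else p ^ 2 + 7 * p

def K3QStmt : Prop := ∀ (p : ℕ) [Fact p.Prime], cnt (NF3bQ (p := p)) = 6

def K3TStmt : Prop := ∀ (p : ℕ) [Fact p.Prime],
  cnt (NF3bT (p := p)) = if p = 2 then 6 else p + 3

def K3UStmt : Prop := ∀ (p : ℕ) [Fact p.Prime], cnt (NF3bU (p := p)) = p + 4

def K3SStmt : Prop := ∀ (p : ℕ) [Fact p.Prime],
  cnt (NF3b (p := p)) = if p = 2 then 66 else p ^ 3 + 3 * p ^ 2 + 15 * p + 22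

def J3GStmt : Prop := ∀ (p : ℕ) [Fact p.Prime], cnt (NF3cG (p := p)) = p ^ 4

def J3LStmt : Prop := ∀ (p : ℕ) [Fact p.Prime],
  cnt (NF3cL (p := p)) = if p = 2 then 30 else if p = 3 then 75 else
    p ^ 3 + 4 * p ^ 2 + 4 * p + 1

def J3ZStmt : Prop := ∀ (p : ℕ) [Fact p.Prime], cnt (NF3cZ (p := p)) = 6

def J3TStmt : Prop := ∀ (p : ℕ) [Fact p.Prime],
  cnt (NF3c (p := p)) = if p = 2 then 52 else if p = 3 then 162 else
    p ^ 4 + p ^ 3 + 4 * p ^ 2 + 4 * p + 7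

def H4AStmt : Prop := ∀ (p : ℕ) [Fact p.Prime],
  cnt (fun x : ZMod (p ^ 2) × ZMod p × ZMod p × ZMod p => NF4a x.1 x.2.1 x.2.2.1 x.2.2.2) =
    if p = 2 then 16 else 4 * p + 10

def H4BStmt : Prop := ∀ (p : ℕ) [Fact p.Prime],
  cnt (fun x : ZMod p × ZMod p × ZMod p × ZMod p => NF4b x.1 x.2.1 x.2.2.1 x.2.2.2) =
    if p = 2 then 12 else 2 * p + 8 + Nat.gcd 3 (p - 1) + Nat.gcd 4 (p - 1)

def H5IStmt : Prop := ∀ (p : ℕ) [Fact p.Prime],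
  cnt (fun x : ZMod p × ZMod p × ZMod p => NF5i x.1 x.2.1 x.2.2) = if p = 2 then 7 else p + 6

def H5AStmt : Prop := ∀ (p : ℕ) [Fact p.Prime],
  cnt (fun x : ZMod p × ZMod p × ZMod p => NF5a x.1 x.2.1 x.2.2) =
    if p = 2 then 5 else 4 + Nat.gcd 3 (p - 1)

def H5BStmt : Prop := ∀ (p : ℕ) [Fact p.Prime],
  cnt (fun x : ZMod p × ZMod p => NF5b x.1 x.2) = 3

/-- The tables of different types are different. -/
def LISStmt : Prop := ∀ (p : ℕ) [Fact p.Prime],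
  Nat.card {T : Tab // Listed p T} = 1 + cnt (NF2a (p := p)) + cnt (NF2b (p := p)) +
    cnt (NF3a (p := p)) + cnt (NF3b (p := p)) + cnt (NF3c (p := p)) +
    cnt (fun x : ZMod (p ^ 2) × ZMod p × ZMod p × ZMod p => NF4a x.1 x.2.1 x.2.2.1 x.2.2.2) +
    cnt (fun x : ZMod p × ZMod p × ZMod p × ZMod p => NF4b x.1 x.2.1 x.2.2.1 x.2.2.2) +
    cnt (fun x : ZMod p × ZMod p × ZMod p => NF5i x.1 x.2.1 x.2.2) +
    cnt (fun x : ZMod p × ZMod p × ZMod p => NF5a x.1 x.2.1 x.2.2) +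
    cnt (fun x : ZMod p × ZMod p => NF5b x.1 x.2)

/-- The number of listed tables. -/
def NUMStmt : Prop := ∀ (p : ℕ) [Fact p.Prime],
  Nat.card {T : Tab // Listed p T} =
    if p = 2 then 221 else if p = 3 then 429 else
      p ^ 4 + 2 * p ^ 3 + 8 * p ^ 2 + 41 * p + 96 + 2 * Nat.gcd 3 (p - 1) + Nat.gcd 4 (p - 1)

end Pool.NR
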