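import Pool.Agent.H97.NR.Defs

/-! Statements of the modules of project NR (nilpotent rings of order `p ^ 4`). -/

set_option linter.unusedVariables false

namespace Pool.NR

universe u v

variable {p : ℕ}

/-! ### Changes of generators -/

/-- Change of generators for `tab31`: `x'_i = ∑ j, g j i x_j (+ c_i z)`, `z' = r z`. -/
def Eqv31 (π : Fin 3 → ZMod p) (B : Fin 3 → Fin 3 → ZMod p) (π' : Fin 3 → ZMod p)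
    (B' : Fin 3 → Fin 3 → ZMod p) : Prop :=
  ∃ (g : Matrix (Fin 3) (Fin 3) (ZMod p)) (r : ZMod p), g.det ≠ 0 ∧ r ≠ 0 ∧
    (∀ i, r * π' i = ∑ j, g j i * π j) ∧
    ∀ i j, r * B' i j = ∑ k, ∑ l, g k i * g l j * B k l

/-- Change of generators for `tab22`: `x'_i = ∑ j, g j i x_j (+ ...)`, `w'_k = ∑ l, h l k w_l`. -/
def Eqv22 (π : Fin 2 → Fin 2 → ZMod p) (B : Fin 2 → Fin 2 → Fin 2 → ZMod p)
    (π' : Fin 2 → Fin 2 → ZMod p) (B' : Fin 2 → Fin 2 → Fin 2 → ZMod p) : Prop :=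
  ∃ g h : Matrix (Fin 2) (Fin 2) (ZMod p), g.det ≠ 0 ∧ h.det ≠ 0 ∧
    (∀ i l, ∑ k, h l k * π' i k = ∑ j, g j i * π j l) ∧
    ∀ i j l, ∑ k, h l k * B' k i j = ∑ a, ∑ b, g a i * g b j * B l a b

/-- Scaled congruence of `3 x 3` forms. -/
def Eq2a (B B' : Fin 3 → Fin 3 → ZMod p) : Prop :=
  ∃ (g : Matrix (Fin 3) (Fin 3) (ZMod p)) (r : ZMod p), g.det ≠ 0 ∧ r ≠ 0 ∧
    ∀ i j, r * B' i j = ∑ k, ∑ l, g k i * g l j * B k l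

/-- `x' = u x + h_1 y_1 + h_2 y_2`, `y'_1 = g_11 y_1 + g_21 y_2`, `y'_2 = g_12 y_1 + g_22 y_2`,
`z' = u z`. -/
def Eq2b (B B' : Fin 3 → Fin 3 → ZMod p) : Prop :=
  ∃ u h1 h2 g11 g12 g21 g22 : ZMod p, u ≠ 0 ∧ g11 * g22 - g12 * g21 ≠ 0 ∧
    ∀ i j, u * B' i j = ∑ k, ∑ l,
      (![![u, 0, 0], ![h1, g11, g12], ![h2, g21, g22]] : Fin 3 → Fin 3 → ZMod p) k i *
      (![![u, 0, 0], ![h1, g11, g12], ![h2, g21, g22]] : Fin 3 → Fin 3 → ZMod p) l j * B k l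

/-- Equivalence of pencils of `2 x 2` forms. -/
def Eq3a (B B' : Fin 2 → Fin 2 → Fin 2 → ZMod p) : Prop :=
  ∃ g h : Matrix (Fin 2) (Fin 2) (ZMod p), g.det ≠ 0 ∧ h.det ≠ 0 ∧
    ∀ i j l, ∑ k, h l k * B' k i j = ∑ a, ∑ b, g a i * g b j * B l a b

/-- `x' = u x + k y`, `y' = v y`, `w' = u w`, `(second w)' = r (second w) + e w`. -/
def Eq3b (B B' : Fin 2 → Fin 2 → Fin 2 → ZMod p) : Prop :=
  ∃ u k v r e : ZMod p, u ≠ 0 ∧ v ≠ 0 ∧ r ≠ 0 ∧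
    (∀ i j, u * B' 0 i j + e * B' 1 i j = ∑ a, ∑ b,
      (![![u, 0], ![k, v]] : Fin 2 → Fin 2 → ZMod p) a i *
      (![![u, 0], ![k, v]] : Fin 2 → Fin 2 → ZMod p) b j * B 0 a b) ∧
    ∀ i j, r * B' 1 i j = ∑ a, ∑ b,
      (![![u, 0], ![k, v]] : Fin 2 → Fin 2 → ZMod p) a i *
      (![![u, 0], ![k, v]] : Fin 2 → Fin 2 → ZMod p) b j * B 1 a b

/-- Isomorphism of two-dimensional algebras. -/
def Eq3c (B B' : Fin 2 → Fin 2 → Fin 2 → ZMod p) : Prop :=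
  ∃ g : Matrix (Fin 2) (Fin 2) (ZMod p), g.det ≠ 0 ∧
    ∀ i j l, ∑ k, g l k * B' k i j = ∑ a, ∑ b, g a i * g b j * B l a b

/-! ### Arithmetic of representatives -/

def KREStmt : Prop := ∀ (p : ℕ) [Fact p.Prime] (k : ℕ) (a : ZMod p), a ≠ 0 →
  ∃ s t : ZMod p, KRep p k s ∧ t ≠ 0 ∧ a = s * t ^ k

def KRUStmt : Prop := ∀ (p : ℕ) [Fact p.Prime] (k : ℕ) (s s' t : ZMod p),
  KRep p k s → KRep p k s' → t ≠ 0 → s' = s * t ^ k → s = s'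

def KR1Stmt : Prop := ∀ (p : ℕ) [Fact p.Prime] (k : ℕ), KRep p k (1 : ZMod p)

/-- `p` odd: exactly one representative modulo squares different from `1`, it is not a square,
and every nonzero element is a square or this representative times a square. For `p = 2`
the only representative is `1`. -/
def KR2Stmt : Prop := ∀ (p : ℕ) [Fact p.Prime],
  (p ≠ 2 → ∃ s : ZMod p, KRep p 2 s ∧ s ≠ 1 ∧ ¬ IsSquare s ∧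
    (∀ s', KRep p 2 s' → s' = 1 ∨ s' = s) ∧
    ∀ a : ZMod p, a ≠ 0 → IsSquare a ∨ ∃ t : ZMod p, t ≠ 0 ∧ a = s * t ^ 2) ∧
  (p = 2 → ∀ s : ZMod p, KRep p 2 s → s = 1)

def AREStmt : Prop := ∀ (p : ℕ) [Fact p.Prime], ∃! a : ZMod p, ARep p a

/-- Every monic quadratic polynomial without roots can be moved to the representative. -/
def ARTStmt : Prop := ∀ (p : ℕ) [Fact p.Prime] (a s d : ZMod p), ARep p a →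
  (∀ x : ZMod p, x ^ 2 + s * x + d ≠ 0) →
  ∃ t k : ZMod p, t ≠ 0 ∧ s * t + 2 * k = 1 ∧ d * t ^ 2 + s * t * k + k ^ 2 = a

def NREStmt : Prop := ∀ (p : ℕ) [Fact p.Prime] (s a b : ZMod p),
  ∃ a' b' : ZMod p, NRep p s a' b' ∧ b' ^ 2 - s * a' ^ 2 = b ^ 2 - s * a ^ 2

def NRUStmt : Prop := ∀ (p : ℕ) [Fact p.Prime] (s a b a' b' : ZMod p),
  NRep p s a b → NRep p s a' b' → b' ^ 2 - s * a' ^ 2 = b ^ 2 - s * a ^ 2 → a = a' ∧ b = b'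

def CREStmt : Prop := ∀ (p : ℕ) [Fact p.Prime], p ≠ 3 →
  ∃ a d : ZMod p, CRep p a d ∧ ∀ a' d' : ZMod p, CRep p a' d' → a' = a ∧ d' = d

/-! ### Equivalence relations -/

def Q2aStmt : Prop := ∀ (p : ℕ) [Fact p.Prime],
  (∀ B : Fin 3 → Fin 3 → ZMod p, Eq2a B B) ∧
  (∀ B B' : Fin 3 → Fin 3 → ZMod p, Eq2a B B' → Eq2a B' B) ∧
  ∀ B B' B'' : Fin 3 → Fin 3 → ZMod p, Eq2a B B' → Eq2a B' B'' → Eq2a B B''

def Q2bStmt : Prop := ∀ (p : ℕ) [Fact p.Prime],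
  (∀ B : Fin 3 → Fin 3 → ZMod p, Eq2b B B) ∧
  (∀ B B' : Fin 3 → Fin 3 → ZMod p, Eq2b B B' → Eq2b B' B) ∧
  ∀ B B' B'' : Fin 3 → Fin 3 → ZMod p, Eq2b B B' → Eq2b B' B'' → Eq2b B B''

def Q3aStmt : Prop := ∀ (p : ℕ) [Fact p.Prime],
  (∀ B : Fin 2 → Fin 2 → Fin 2 → ZMod p, Eq3a B B) ∧
  (∀ B B' : Fin 2 → Fin 2 → Fin 2 → ZMod p, Eq3a B B' → Eq3a B' B) ∧
  ∀ B B' B'' : Fin 2 → Fin 2 → Fin 2 → ZMod p, Eq3a B B' → Eq3a B' B'' → Eq3a B B''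

def Q3bStmt : Prop := ∀ (p : ℕ) [Fact p.Prime],
  (∀ B : Fin 2 → Fin 2 → Fin 2 → ZMod p, Eq3b B B) ∧
  (∀ B B' : Fin 2 → Fin 2 → Fin 2 → ZMod p, Eq3b B B' → Eq3b B' B) ∧
  ∀ B B' B'' : Fin 2 → Fin 2 → Fin 2 → ZMod p, Eq3b B B' → Eq3b B' B'' → Eq3b B B''

def Q3cStmt : Prop := ∀ (p : ℕ) [Fact p.Prime],
  (∀ B : Fin 2 → Fin 2 → Fin 2 → ZMod p, Eq3c B B) ∧
  (∀ B B' : Fin 2 → Fin 2 → Fin 2 → ZMod p, Eq3c B B' → Eq3c B' B) ∧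
  ∀ B B' B'' : Fin 2 → Fin 2 → Fin 2 → ZMod p, Eq3c B B' → Eq3c B' B'' → Eq3c B B''

def QTStmt : Prop := ∀ (p : ℕ) [Fact p.Prime],
  (∀ (π π' π'' : Fin 3 → ZMod p) (B B' B'' : Fin 3 → Fin 3 → ZMod p),
    Eqv31 π B π' B' → Eqv31 π' B' π'' B'' → Eqv31 π B π'' B'') ∧
  ∀ (π π' π'' : Fin 2 → Fin 2 → ZMod p) (B B' B'' : Fin 2 → Fin 2 → Fin 2 → ZMod p),
    Eqv22 π B π' B' → Eqv22 π' B' π'' B'' → Eqv22 π B π'' B''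

/-! ### Links and reductions -/

def LK1Stmt : Prop := ∀ (p : ℕ) [Fact p.Prime],
  (∀ B B' : Fin 3 → Fin 3 → ZMod p, Eqv31 0 B 0 B' ↔ Eq2a B B') ∧
  (∀ B B' : Fin 3 → Fin 3 → ZMod p, Eqv31 pi31 B pi31 B' ↔ Eq2b B B') ∧
  (∀ (π : Fin 3 → ZMod p) (B : Fin 3 → Fin 3 → ZMod p), π ≠ 0 → ∃ B', Eqv31 π B pi31 B') ∧
  ∀ (π π' : Fin 3 → ZMod p) (B B' : Fin 3 → Fin 3 → ZMod p), Eqv31 π B π' B' →
    (π = 0 ↔ π' = 0) ∧ (B = 0 ↔ B' = 0)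

def LK2Stmt : Prop := ∀ (p : ℕ) [Fact p.Prime],
  (∀ B B' : Fin 2 → Fin 2 → Fin 2 → ZMod p, Eqv22 0 B 0 B' ↔ Eq3a B B') ∧
  (∀ B B' : Fin 2 → Fin 2 → Fin 2 → ZMod p, Eqv22 pi3b B pi3b B' ↔ Eq3b B B') ∧
  (∀ B B' : Fin 2 → Fin 2 → Fin 2 → ZMod p, Eqv22 pi3c B pi3c B' ↔ Eq3c B B')

/-- `π` and `B` together generate: no nonzero functional kills all `π_i` and all `B_ij`. -/
def Surj22 (π : Fin 2 → Fin 2 → ZMod p) (B : Fin 2 → Fin 2 → Fin 2 → ZMod p) : Prop :=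
  ∀ c : Fin 2 → ZMod p, (∀ i, ∑ l, c l * π i l = 0) → (∀ i j, ∑ l, c l * B l i j = 0) → c = 0

def LK3Stmt : Prop := ∀ (p : ℕ) [Fact p.Prime],
  (∀ (π : Fin 2 → Fin 2 → ZMod p) (B : Fin 2 → Fin 2 → Fin 2 → ZMod p), π ≠ 0 → Surj22 π B →
    (∃ B' : Fin 2 → Fin 2 → Fin 2 → ZMod p, B' 1 ≠ 0 ∧ Eqv22 π B pi3b B') ∨
      ∃ B' : Fin 2 → Fin 2 → Fin 2 → ZMod p, Eqv22 π B pi3c B') ∧
  (∀ (π π' : Fin 2 → Fin 2 → ZMod p) (B B' : Fin 2 → Fin 2 → Fin 2 → ZMod p),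
    Eqv22 π B π' B' → Surj22 π B → Surj22 π' B') ∧
  (∀ (π π' : Fin 2 → Fin 2 → ZMod p) (B B' : Fin 2 → Fin 2 → Fin 2 → ZMod p),
    Eqv22 π B π' B' → (π = 0 ∨ π = pi3b ∨ π = pi3c) → (π' = 0 ∨ π' = pi3b ∨ π' = pi3c) → π = π')

/-! ### `T2a` : `3 x 3` forms up to scaled congruence -/

/-- The form is alternating. -/
def Alt3 (B : Fin 3 → Fin 3 → ZMod p) : Prop := (∀ i, B i i = 0) ∧ ∀ i j, B i j = - B j i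

/-- The form is symmetric. -/
def Sym3 (B : Fin 3 → Fin 3 → ZMod p) : Prop := ∀ i j, B i j = B j i

def A2AStmt : Prop := ∀ (p : ℕ) [Fact p.Prime] (B : Fin 3 → Fin 3 → ZMod p), B ≠ 0 → Alt3 B →
  Eq2a B ![![0, 1, 0], ![-1, 0, 0], ![0, 0, 0]]

def A2SStmt : Prop := ∀ (p : ℕ) [Fact p.Prime] (B : Fin 3 → Fin 3 → ZMod p), ¬ Alt3 B → Sym3 B →
  ∃ B', NF2aS B' ∧ Eq2a B B'

/-- Not symmetric: move a vector of the kernel of `B - B^T` to the first place. -/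
def A2KStmt : Prop := ∀ (p : ℕ) [Fact p.Prime] (B : Fin 3 → Fin 3 → ZMod p), ¬ Sym3 B →
  ∃ B' : Fin 3 → Fin 3 → ZMod p, Eq2a B B' ∧ B' 0 1 = B' 1 0 ∧ B' 0 2 = B' 2 0 ∧
    B' 1 2 ≠ B' 2 1

def A2MStmt : Prop := ∀ (p : ℕ) [Fact p.Prime] (b c d e : ZMod p), c ≠ d →
  ¬ Alt3 (p := p) ![![0, 0, 0], ![0, b, c], ![0, d, e]] →
  ∃ B', NF2aM B' ∧ Eq2a (p := p) ![![0, 0, 0], ![0, b, c], ![0, d, e]] B'

def A2EStmt : Prop := ∀ (p : ℕ) [Fact p.Prime] (B : Fin 3 → Fin 3 → ZMod p), B 0 1 = B 1 0 →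
  B 0 2 = B 2 0 → B 1 2 ≠ B 2 1 → B 0 0 ≠ 0 → ∃ B', NF2aE B' ∧ Eq2a B B'

def A2NStmt : Prop := ∀ (p : ℕ) [Fact p.Prime] (B : Fin 3 → Fin 3 → ZMod p), B 0 1 = B 1 0 →
  B 0 2 = B 2 0 → B 1 2 ≠ B 2 1 → B 0 0 = 0 → (B 0 1 ≠ 0 ∨ B 0 2 ≠ 0) →
  ∃ B', NF2aN B' ∧ Eq2a B B'

def U2SStmt : Prop := ∀ (p : ℕ) [Fact p.Prime] (B B' : Fin 3 → Fin 3 → ZMod p),
  NF2aS B → NF2aS B' → Eq2a B B' → B = B'

def U2MStmt : Prop := ∀ (p : ℕ) [Fact p.Prime] (B B' : Fin 3 → Fin 3 → ZMod p),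
  NF2aM B → NF2aM B' → Eq2a B B' → B = B'

def U2EStmt : Prop := ∀ (p : ℕ) [Fact p.Prime] (B B' : Fin 3 → Fin 3 → ZMod p),
  NF2aE B → NF2aE B' → Eq2a B B' → B = B'

def U2NStmt : Prop := ∀ (p : ℕ) [Fact p.Prime] (B B' : Fin 3 → Fin 3 → ZMod p),
  NF2aN B → NF2aN B' → Eq2a B B' → B = B'

/-- Forms in different blocks are not equivalent. -/
def U2CStmt : Prop := ∀ (p : ℕ) [Fact p.Prime] (B B' : Fin 3 → Fin 3 → ZMod p),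
  NF2a B → NF2a B' → Eq2a B B' → B = B' ∨ (NF2aS B ∧ NF2aS B') ∨ (NF2aM B ∧ NF2aM B') ∨
    (NF2aE B ∧ NF2aE B') ∨ (NF2aN B ∧ NF2aN B')

/-! ### `T2b` -/

/-- Types of `2 x 2` forms up to scaled congruence. -/
def MT (m11 m12 m21 m22 : ZMod p) : Prop :=
  (m11 = 0 ∧ m12 = 0 ∧ m21 = 0 ∧ m22 = 0) ∨ (m11 = 1 ∧ m12 = 0 ∧ m21 = 0 ∧ m22 = 0) ∨
  (m11 = 0 ∧ m12 = 1 ∧ m21 = 0 ∧ m22 = 0) ∨ (m11 = 0 ∧ m12 = 1 ∧ m21 = -1 ∧ m22 = 0) ∨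
  (m11 = 1 ∧ m12 = 1 ∧ m21 = 0 ∧ m22 ≠ 0 ∧ 4 * m22 ≠ 1) ∨
  (p ≠ 2 ∧ m11 = 1 ∧ m12 = 1 ∧ m21 = -1 ∧ m22 = 0) ∨
  (m11 = 1 ∧ m12 = 0 ∧ m21 = 0 ∧ KRep p 2 m22)

/-- Every `2 x 2` form is scaled congruent to one of the types (`x'_i = ∑ g_ji x_j`). -/
def F2XStmt : Prop := ∀ (p : ℕ) [Fact p.Prime] (m11 m12 m21 m22 : ZMod p),
  ∃ g11 g12 g21 g22 r n11 n12 n21 n22 : ZMod p, g11 * g22 - g12 * g21 ≠ 0 ∧ r ≠ 0 ∧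
    MT n11 n12 n21 n22 ∧
    r * n11 = g11 * g11 * m11 + g11 * g21 * m12 + g21 * g11 * m21 + g21 * g21 * m22 ∧
    r * n12 = g11 * g12 * m11 + g11 * g22 * m12 + g21 * g12 * m21 + g21 * g22 * m22 ∧
    r * n21 = g12 * g11 * m11 + g12 * g21 * m12 + g22 * g11 * m21 + g22 * g21 * m22 ∧
    r * n22 = g12 * g12 * m11 + g12 * g22 * m12 + g22 * g12 * m21 + g22 * g22 * m22

/-- Reduction of the `2 x 2` block. -/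
def B2XStmt : Prop := ∀ (p : ℕ) [Fact p.Prime] (B : Fin 3 → Fin 3 → ZMod p),
  ∃ a b1 b2 c1 c2 m11 m12 m21 m22 : ZMod p, MT m11 m12 m21 m22 ∧
    Eq2b B (T2b a b1 b2 c1 c2 m11 m12 m21 m22)

def B2OStmt : Prop := ∀ (p : ℕ) [Fact p.Prime] (a b1 b2 c1 c2 : ZMod p),
  ∃ B', NF2bO B' ∧ Eq2b (T2b a b1 b2 c1 c2 0 0 0 0) B'

def B2DStmt : Prop := ∀ (p : ℕ) [Fact p.Prime] (a b1 b2 c1 c2 : ZMod p),
  ∃ B', NF2bD B' ∧ Eq2b (T2b a b1 b2 c1 c2 1 0 0 0) B'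

def B2EStmt : Prop := ∀ (p : ℕ) [Fact p.Prime] (a b1 b2 c1 c2 : ZMod p),
  ∃ B', NF2bE B' ∧ Eq2b (T2b a b1 b2 c1 c2 0 1 0 0) B'

def B2JStmt : Prop := ∀ (p : ℕ) [Fact p.Prime] (a b1 b2 c1 c2 : ZMod p),
  ∃ B', NF2bJ B' ∧ Eq2b (T2b a b1 b2 c1 c2 0 1 (-1) 0) B'

def B2MStmt : Prop := ∀ (p : ℕ) [Fact p.Prime] (a b1 b2 c1 c2 δ : ZMod p), δ ≠ 0 → 4 * δ ≠ 1 →
  ∃ B', NF2bM B' ∧ Eq2b (T2b a b1 b2 c1 c2 1 1 0 δ) B'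

def B2KStmt : Prop := ∀ (p : ℕ) [Fact p.Prime] (a b1 b2 c1 c2 : ZMod p), p ≠ 2 →
  ∃ B', NF2bK B' ∧ Eq2b (T2b a b1 b2 c1 c2 1 1 (-1) 0) B'

def B2SStmt : Prop := ∀ (p : ℕ) [Fact p.Prime] (a b1 b2 c1 c2 s : ZMod p), KRep p 2 s →
  ∃ B', NF2bS B' ∧ Eq2b (T2b a b1 b2 c1 c2 1 0 0 s) B'

def V2OStmt : Prop := ∀ (p : ℕ) [Fact p.Prime] (B B' : Fin 3 → Fin 3 → ZMod p),
  NF2bO B → NF2bO B' → Eq2b B B' → B = B'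

def V2DStmt : Prop := ∀ (p : ℕ) [Fact p.Prime] (B B' : Fin 3 → Fin 3 → ZMod p),
  NF2bD B → NF2bD B' → Eq2b B B' → B = B'

def V2EStmt : Prop := ∀ (p : ℕ) [Fact p.Prime] (B B' : Fin 3 → Fin 3 → ZMod p),
  NF2bE B → NF2bE B' → Eq2b B B' → B = B'

def V2JStmt : Prop := ∀ (p : ℕ) [Fact p.Prime] (B B' : Fin 3 → Fin 3 → ZMod p),
  NF2bJ B → NF2bJ B' → Eq2b B B' → B = B'

def V2MStmt : Prop := ∀ (p : ℕ) [Fact p.Prime] (B B' : Fin 3 → Fin 3 → ZMod p),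
  NF2bM B → NF2bM B' → Eq2b B B' → B = B'

def V2KStmt : Prop := ∀ (p : ℕ) [Fact p.Prime] (B B' : Fin 3 → Fin 3 → ZMod p),
  NF2bK B → NF2bK B' → Eq2b B B' → B = B'

def V2SStmt : Prop := ∀ (p : ℕ) [Fact p.Prime] (B B' : Fin 3 → Fin 3 → ZMod p),
  NF2bS B → NF2bS B' → Eq2b B B' → B = B'

def V2CStmt : Prop := ∀ (p : ℕ) [Fact p.Prime] (B B' : Fin 3 → Fin 3 → ZMod p),
  NF2b B → NF2b B' → Eq2b B B' → (NF2bO B ∧ NF2bO B') ∨ (NF2bD B ∧ NF2bD B') ∨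
    (NF2bE B ∧ NF2bE B') ∨ (NF2bJ B ∧ NF2bJ B') ∨ (NF2bM B ∧ NF2bM B') ∨
    (NF2bK B ∧ NF2bK B') ∨ (NF2bS B ∧ NF2bS B')

/-! ### `T3a` : pencils of `2 x 2` forms -/

/-- The two forms are linearly independent. -/
def LI2 (B : Fin 2 → Fin 2 → Fin 2 → ZMod p) : Prop :=
  ∀ c d : ZMod p, (∀ i j, c * B 0 i j + d * B 1 i j = 0) → c = 0 ∧ d = 0

def C3CStmt : Prop := ∀ (p : ℕ) [Fact p.Prime] (B : Fin 2 → Fin 2 → Fin 2 → ZMod p), LI2 B →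
  (∀ l, B l 0 1 = B l 1 0) → ∃ B', NF3aC B' ∧ Eq3a B B'

/-- Not all symmetric: move the symmetric member to one of four shapes. -/
def C3KStmt : Prop := ∀ (p : ℕ) [Fact p.Prime] (B : Fin 2 → Fin 2 → Fin 2 → ZMod p), LI2 B →
  ¬ (∀ l, B l 0 1 = B l 1 0) → ∃ A C D E : ZMod p, C ≠ D ∧
    (Eq3a B (T22 1 0 0 0 A C D E) ∨ Eq3a B (T22 0 1 1 0 A C D E) ∨
      (p ≠ 2 ∧ ∃ s, KRep p 2 s ∧ s ≠ 1 ∧ Eq3a B (T22 1 0 0 (-s) A C D E)) ∨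
      (p = 2 ∧ Eq3a B (T22 1 0 0 1 A C D E)))

def C3XStmt : Prop := ∀ (p : ℕ) [Fact p.Prime] (A C D E : ZMod p), C ≠ D →
  ∃ B', NF3aX B' ∧ Eq3a (T22 1 0 0 0 A C D E) B'

def C3HStmt : Prop := ∀ (p : ℕ) [Fact p.Prime] (A C D E : ZMod p), C ≠ D →
  ∃ B', NF3aH B' ∧ Eq3a (T22 0 1 1 0 A C D E) B'

def C3NStmt : Prop := ∀ (p : ℕ) [Fact p.Prime] (s A C D E : ZMod p), C ≠ D → p ≠ 2 →
  KRep p 2 s → s ≠ 1 → ∃ B', NF3aN B' ∧ Eq3a (T22 1 0 0 (-s) A C D E) B'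

def C3PStmt : Prop := ∀ (p : ℕ) [Fact p.Prime] (A C D E : ZMod p), C ≠ D → p = 2 →
  ∃ B', NF3aN B' ∧ Eq3a (T22 1 0 0 1 A C D E) B'

def W3CStmt : Prop := ∀ (p : ℕ) [Fact p.Prime] (B B' : Fin 2 → Fin 2 → Fin 2 → ZMod p),
  NF3aC B → NF3aC B' → Eq3a B B' → B = B'

def W3XStmt : Prop := ∀ (p : ℕ) [Fact p.Prime] (B B' : Fin 2 → Fin 2 → Fin 2 → ZMod p),
  NF3aX B → NF3aX B' → Eq3a B B' → B = B'

def W3HStmt : Prop := ∀ (p : ℕ) [Fact p.Prime] (B B' : Fin 2 → Fin 2 → Fin 2 → ZMod p),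
  NF3aH B → NF3aH B' → Eq3a B B' → B = B'

def W3NStmt : Prop := ∀ (p : ℕ) [Fact p.Prime] (B B' : Fin 2 → Fin 2 → Fin 2 → ZMod p),
  NF3aN B → NF3aN B' → Eq3a B B' → B = B'

def W3DStmt : Prop := ∀ (p : ℕ) [Fact p.Prime] (B B' : Fin 2 → Fin 2 → Fin 2 → ZMod p),
  NF3a B → NF3a B' → Eq3a B B' → (NF3aC B ∧ NF3aC B') ∨ (NF3aX B ∧ NF3aX B') ∨
    (NF3aH B ∧ NF3aH B') ∨ (NF3aN B ∧ NF3aN B')

/-! ### `T3b` -/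

def D3AStmt : Prop := ∀ (p : ℕ) [Fact p.Prime] (B : Fin 2 → Fin 2 → Fin 2 → ZMod p),
  B 1 1 1 ≠ 0 → B 1 0 1 ≠ B 1 1 0 → ∃ B', NF3bA1 B' ∧ Eq3b B B'

def D3GStmt : Prop := ∀ (p : ℕ) [Fact p.Prime] (B : Fin 2 → Fin 2 → Fin 2 → ZMod p),
  B 1 1 1 ≠ 0 → B 1 0 1 = B 1 1 0 → ∃ B', NF3bA2 B' ∧ Eq3b B B'

def D3BStmt : Prop := ∀ (p : ℕ) [Fact p.Prime] (B : Fin 2 → Fin 2 → Fin 2 → ZMod p),
  B 1 1 1 = 0 → B 1 0 1 + B 1 1 0 ≠ 0 → ∃ B', NF3bB B' ∧ Eq3b B B'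

def D3QStmt : Prop := ∀ (p : ℕ) [Fact p.Prime] (B : Fin 2 → Fin 2 → Fin 2 → ZMod p),
  B 1 1 1 = 0 → B 1 0 1 + B 1 1 0 = 0 → B 1 0 1 ≠ 0 → B 1 0 0 = 0 → ∃ B', NF3bQ B' ∧ Eq3b B B'

def D3TStmt : Prop := ∀ (p : ℕ) [Fact p.Prime] (B : Fin 2 → Fin 2 → Fin 2 → ZMod p),
  B 1 1 1 = 0 → B 1 0 1 + B 1 1 0 = 0 → B 1 0 1 ≠ 0 → B 1 0 0 ≠ 0 → ∃ B', NF3bT B' ∧ Eq3b B B'

def D3UStmt : Prop := ∀ (p : ℕ) [Fact p.Prime] (B : Fin 2 → Fin 2 → Fin 2 → ZMod p),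
  B 1 1 1 = 0 → B 1 0 1 = 0 → B 1 1 0 = 0 → B 1 0 0 ≠ 0 → ∃ B', NF3bU B' ∧ Eq3b B B'

def X3AStmt : Prop := ∀ (p : ℕ) [Fact p.Prime] (B B' : Fin 2 → Fin 2 → Fin 2 → ZMod p),
  NF3bA1 B → NF3bA1 B' → Eq3b B B' → B = B'

def X3GStmt : Prop := ∀ (p : ℕ) [Fact p.Prime] (B B' : Fin 2 → Fin 2 → Fin 2 → ZMod p),
  NF3bA2 B → NF3bA2 B' → Eq3b B B' → B = B'

def X3BStmt : Prop := ∀ (p : ℕ) [Fact p.Prime] (B B' : Fin 2 → Fin 2 → Fin 2 → ZMod p),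
  NF3bB B → NF3bB B' → Eq3b B B' → B = B'

def X3QStmt : Prop := ∀ (p : ℕ) [Fact p.Prime] (B B' : Fin 2 → Fin 2 → Fin 2 → ZMod p),
  NF3bQ B → NF3bQ B' → Eq3b B B' → B = B'

def X3TStmt : Prop := ∀ (p : ℕ) [Fact p.Prime] (B B' : Fin 2 → Fin 2 → Fin 2 → ZMod p),
  NF3bT B → NF3bT B' → Eq3b B B' → B = B'

def X3UStmt : Prop := ∀ (p : ℕ) [Fact p.Prime] (B B' : Fin 2 → Fin 2 → Fin 2 → ZMod p),
  NF3bU B → NF3bU B' → Eq3b B B' → B = B'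

def X3CStmt : Prop := ∀ (p : ℕ) [Fact p.Prime] (B B' : Fin 2 → Fin 2 → Fin 2 → ZMod p),
  NF3b B → NF3b B' → Eq3b B B' → (NF3bA1 B ∧ NF3bA1 B') ∨ (NF3bA2 B ∧ NF3bA2 B') ∨
    (NF3bB B ∧ NF3bB B') ∨ (NF3bQ B ∧ NF3bQ B') ∨ (NF3bT B ∧ NF3bT B') ∨
    (NF3bU B ∧ NF3bU B')

/-! ### `T3c` : two-dimensional algebras -/

/-- Left trace. -/
def tr1 (B : Fin 2 → Fin 2 → Fin 2 → ZMod p) (i : Fin 2) : ZMod p := B 0 i 0 + B 1 i 1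

/-- Right trace. -/
def tr2 (B : Fin 2 → Fin 2 → Fin 2 → ZMod p) (i : Fin 2) : ZMod p := B 0 0 i + B 1 1 i

def E3GStmt : Prop := ∀ (p : ℕ) [Fact p.Prime] (B : Fin 2 → Fin 2 → Fin 2 → ZMod p),
  tr1 B 0 * tr2 B 1 ≠ tr1 B 1 * tr2 B 0 → ∃ B', NF3cG B' ∧ Eq3c B B'

/-- Traces dependent, not both zero: reach the shape `T3c`. -/
def E3KStmt : Prop := ∀ (p : ℕ) [Fact p.Prime] (B : Fin 2 → Fin 2 → Fin 2 → ZMod p),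
  tr1 B 0 * tr2 B 1 = tr1 B 1 * tr2 B 0 → ¬ (tr1 B = 0 ∧ tr2 B = 0) →
  ∃ α β a c d e : ZMod p, Pt α β ∧ Eq3c B (T3c α β a c d e)

def E3LStmt : Prop := ∀ (p : ℕ) [Fact p.Prime] (α β a c d e : ZMod p), Pt α β →
  ∃ B', NF3cL B' ∧ Eq3c (T3c α β a c d e) B'

/-- Traces zero. -/
def E3ZStmt : Prop := ∀ (p : ℕ) [Fact p.Prime] (B : Fin 2 → Fin 2 → Fin 2 → ZMod p),
  tr1 B = 0 → tr2 B = 0 → ∃ a c d e : ZMod p, B = T3c 0 0 a c d e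

/-- The cubic form has a root: `c = 0`. -/
def E3RStmt : Prop := ∀ (p : ℕ) [Fact p.Prime] (a d e : ZMod p),
  ∃ B', NF3cZ B' ∧ Eq3c (T3c 0 0 a 0 d e) B'

/-- The cubic form has a root: reach `c = 0`. -/
def E3SStmt : Prop := ∀ (p : ℕ) [Fact p.Prime] (a c d e x y : ZMod p), (x ≠ 0 ∨ y ≠ 0) →
  - d * x ^ 3 + 3 * a * x ^ 2 * y - 3 * e * x * y ^ 2 + c * y ^ 3 = 0 →
  ∃ a' d' e' : ZMod p, Eq3c (T3c 0 0 a c d e) (T3c 0 0 a' 0 d' e')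

/-- No root: then `p ≠ 3` and the algebra is the representative. -/
def E3IStmt : Prop := ∀ (p : ℕ) [Fact p.Prime] (a c d e : ZMod p),
  (∀ x y : ZMod p, - d * x ^ 3 + 3 * a * x ^ 2 * y - 3 * e * x * y ^ 2 + c * y ^ 3 = 0 →
    x = 0 ∧ y = 0) → ∃ B', NF3cZ B' ∧ Eq3c (T3c 0 0 a c d e) B'

def Y3GStmt : Prop := ∀ (p : ℕ) [Fact p.Prime] (B B' : Fin 2 → Fin 2 → Fin 2 → ZMod p),
  NF3cG B → NF3cG B' → Eq3c B B' → B = B'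

def Y3LStmt : Prop := ∀ (p : ℕ) [Fact p.Prime] (B B' : Fin 2 → Fin 2 → Fin 2 → ZMod p),
  NF3cL B → NF3cL B' → Eq3c B B' → B = B'

def Y3ZStmt : Prop := ∀ (p : ℕ) [Fact p.Prime] (B B' : Fin 2 → Fin 2 → Fin 2 → ZMod p),
  NF3cZ B → NF3cZ B' → Eq3c B B' → B = B'

def Y3CStmt : Prop := ∀ (p : ℕ) [Fact p.Prime] (B B' : Fin 2 → Fin 2 → Fin 2 → ZMod p),
  NF3c B → NF3c B' → Eq3c B B' → (NF3cG B ∧ NF3cG B') ∨ (NF3cL B ∧ NF3cL B') ∨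
    (NF3cZ B ∧ NF3cZ B')

/-! ### Rings from tables -/

/-- The vector `n` is a combination of the rows `p e_i - P_i`. -/
def InL (p : ℕ) (T : Tab) (n : Fin 4 → ℤ) : Prop :=
  ∃ c : Fin 4 → ℤ, ∀ j, n j = p * c j - ∑ i, c i * (T.P i j : ℤ)

/-- The additive relations are triangular. -/
def TabUp (T : Tab) : Prop := ∀ i j, j ≤ i → T.P i j = 0

/-- The table is consistent. -/
def Cons (p : ℕ) (T : Tab) : Prop :=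
  TabUp T ∧ (∀ i j k, k ≤ i ∨ k ≤ j → T.M i j k = 0) ∧
  (∀ i j, InL p T fun k => p * (T.M i j k : ℤ) - ∑ l, (T.P i l : ℤ) * T.M l j k) ∧
  (∀ i j, InL p T fun k => p * (T.M i j k : ℤ) - ∑ l, (T.P j l : ℤ) * T.M i l k) ∧
  ∀ i j k, InL p T fun m =>
    ∑ l, (T.M i j l : ℤ) * T.M l k m - ∑ l, (T.M j k l : ℤ) * T.M i l m

def RQStmt : Prop := ∀ (p : ℕ) [Fact p.Prime] (T : Tab), Cons p T →
  ∃ (R : Type) (_ : NonUnitalRing R), Nat.card R = p ^ 4 ∧ IsNilp R ∧ HasTab p R T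

def CO1Stmt : Prop := ∀ (p : ℕ) [Fact p.Prime] (π : Fin 3 → ZMod p)
  (B : Fin 3 → Fin 3 → ZMod p), Cons p (tab31 π B)

def CO2Stmt : Prop := ∀ (p : ℕ) [Fact p.Prime] (π : Fin 2 → Fin 2 → ZMod p)
  (B : Fin 2 → Fin 2 → Fin 2 → ZMod p), Cons p (tab22 π B)

def CO3Stmt : Prop := ∀ (p : ℕ) [Fact p.Prime],
  (∀ (L : ZMod (p ^ 2)) (b c d : ZMod p), Cons p (tab4a L b c d)) ∧
  ∀ b c d e : ZMod p, Cons p (tab4b b c d e)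

def CO4Stmt : Prop := ∀ (p : ℕ) [Fact p.Prime],
  (∀ α β γ : ZMod p, Cons p (tab5i α β γ)) ∧ (∀ l m n : ZMod p, Cons p (tab5a l m n)) ∧
  ∀ c d : ZMod p, Cons p (tab5b c d)

/-- Relations between generators are only the defining ones. -/
def BASStmt : Prop := ∀ (p : ℕ) [Fact p.Prime] (R : Type u) [NonUnitalRing R] (T : Tab),
  Nat.card R = p ^ 4 → TabUp T → ∀ g : Fin 4 → R, AddSubgroup.closure (Set.range g) = ⊤ →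
  (∀ i, p • g i = ∑ j, T.P i j • g j) →
  ∀ n : Fin 4 → ℤ, ∑ i, n i • g i = 0 → InL p T n

def ISOStmt : Prop := ∀ (p : ℕ) [Fact p.Prime] (R : Type u) (S : Type v) [NonUnitalRing R]
  [NonUnitalRing S] (T : Tab), Nat.card R = p ^ 4 → Nat.card S = p ^ 4 → TabUp T →
  HasTab p R T → HasTab p S T → Nonempty (R ≃+* S)

/-! ### Rings and changes of generators -/

def RB1Stmt : Prop := ∀ (p : ℕ) [Fact p.Prime] (R : Type u) [NonUnitalRing R]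
  (π π' : Fin 3 → ZMod p) (B B' : Fin 3 → Fin 3 → ZMod p), HasTab p R (tab31 π B) →
  Eqv31 π B π' B' → HasTab p R (tab31 π' B')

def RC1Stmt : Prop := ∀ (p : ℕ) [Fact p.Prime] (R : Type u) [NonUnitalRing R]
  (π π' : Fin 3 → ZMod p) (B B' : Fin 3 → Fin 3 → ZMod p), Nat.card R = p ^ 4 →
  (π ≠ 0 ∨ B ≠ 0) → HasTab p R (tab31 π B) → HasTab p R (tab31 π' B') → Eqv31 π B π' B'

def RB2Stmt : Prop := ∀ (p : ℕ) [Fact p.Prime] (R : Type u) [NonUnitalRing R]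
  (π π' : Fin 2 → Fin 2 → ZMod p) (B B' : Fin 2 → Fin 2 → Fin 2 → ZMod p),
  HasTab p R (tab22 π B) → Eqv22 π B π' B' → HasTab p R (tab22 π' B')

def RC2Stmt : Prop := ∀ (p : ℕ) [Fact p.Prime] (R : Type u) [NonUnitalRing R]
  (π π' : Fin 2 → Fin 2 → ZMod p) (B B' : Fin 2 → Fin 2 → Fin 2 → ZMod p),
  Nat.card R = p ^ 4 → Surj22 π B → HasTab p R (tab22 π B) → HasTab p R (tab22 π' B') →
  Eqv22 π B π' B'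

def R4AStmt : Prop := ∀ (p : ℕ) [Fact p.Prime] (R : Type u) [NonUnitalRing R]
  (L : ZMod (p ^ 2)) (b c d : ZMod p), HasTab p R (tab4a L b c d) →
  ∃ (L' : ZMod (p ^ 2)) (b' c' d' : ZMod p), NF4a L' b' c' d' ∧ HasTab p R (tab4a L' b' c' d')

def S4AStmt : Prop := ∀ (p : ℕ) [Fact p.Prime] (R : Type u) [NonUnitalRing R]
  (L L' : ZMod (p ^ 2)) (b c d b' c' d' : ZMod p), Nat.card R = p ^ 4 →
  HasTab p R (tab4a L b c d) → HasTab p R (tab4a L' b' c' d') → NF4a L b c d →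
  NF4a L' b' c' d' → L = L' ∧ b = b' ∧ c = c' ∧ d = d'

def R4BStmt : Prop := ∀ (p : ℕ) [Fact p.Prime] (R : Type u) [NonUnitalRing R]
  (b c d e : ZMod p), HasTab p R (tab4b b c d e) →
  ∃ b' c' d' e' : ZMod p, NF4b b' c' d' e' ∧ HasTab p R (tab4b b' c' d' e')

def S4BStmt : Prop := ∀ (p : ℕ) [Fact p.Prime] (R : Type u) [NonUnitalRing R]
  (b c d e b' c' d' e' : ZMod p), Nat.card R = p ^ 4 →
  HasTab p R (tab4b b c d e) → HasTab p R (tab4b b' c' d' e') → NF4b b c d e →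
  NF4b b' c' d' e' → b = b' ∧ c = c' ∧ d = d' ∧ e = e'

def R5IStmt : Prop := ∀ (p : ℕ) [Fact p.Prime] (R : Type u) [NonUnitalRing R]
  (α β γ : ZMod p), (α ≠ 0 ∨ β ≠ 0 ∨ γ ≠ 0) → HasTab p R (tab5i α β γ) →
  ∃ α' β' γ' : ZMod p, NF5i α' β' γ' ∧ HasTab p R (tab5i α' β' γ')

def S5IStmt : Prop := ∀ (p : ℕ) [Fact p.Prime] (R : Type u) [NonUnitalRing R]
  (α β γ α' β' γ' : ZMod p), Nat.card R = p ^ 4 →
  HasTab p R (tab5i α β γ) → HasTab p R (tab5i α' β' γ') → NF5i α β γ → NF5i α' β' γ' →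
  α = α' ∧ β = β' ∧ γ = γ'

/-- `p x = l x ^ 2 + ...` with `l ≠ 0` is also covered (`p x' = x' ^ 2`). -/
def R5AStmt : Prop := ∀ (p : ℕ) [Fact p.Prime] (R : Type u) [NonUnitalRing R]
  (l m n : ZMod p), HasTab p R (tab5a l m n) →
  ∃ l' m' n' : ZMod p, NF5a l' m' n' ∧ HasTab p R (tab5a l' m' n')

def S5AStmt : Prop := ∀ (p : ℕ) [Fact p.Prime] (R : Type u) [NonUnitalRing R]
  (l m n l' m' n' : ZMod p), Nat.card R = p ^ 4 →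
  HasTab p R (tab5a l m n) → HasTab p R (tab5a l' m' n') → NF5a l m n → NF5a l' m' n' →
  l = l' ∧ m = m' ∧ n = n'

def R5BStmt : Prop := ∀ (p : ℕ) [Fact p.Prime] (R : Type u) [NonUnitalRing R]
  (c d : ZMod p), HasTab p R (tab5b c d) →
  ∃ c' d' : ZMod p, NF5b c' d' ∧ HasTab p R (tab5b c' d')

def S5BStmt : Prop := ∀ (p : ℕ) [Fact p.Prime] (R : Type u) [NonUnitalRing R]
  (c d c' d' : ZMod p), Nat.card R = p ^ 4 →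
  HasTab p R (tab5b c d) → HasTab p R (tab5b c' d') → NF5b c d → NF5b c' d' → c = c' ∧ d = d'

/-! ### Invariants -/

/-- The additive subgroup generated by `p s`, `r s`, `s r` with `s ∈ S`, `r ∈ R`. -/
def Dd (p : ℕ) {R : Type u} [NonUnitalRing R] (S : AddSubgroup R) : AddSubgroup R :=
  AddSubgroup.closure {x | ∃ s ∈ S, x = p • s ∨ ∃ r : R, x = r * s ∨ x = s * r}

def FILStmt : Prop := ∀ (p : ℕ) [Fact p.Prime] (R : Type u) [NonUnitalRing R],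
  Nat.card R = p ^ 4 → IsNilp R → ∀ S : AddSubgroup R,
  (∀ s ∈ S, ∀ r : R, r * s ∈ S ∧ s * r ∈ S) →
  Dd p S ≤ S ∧ (S ≠ ⊥ → Dd p S ≠ S) ∧ ∀ s ∈ Dd p S, ∀ r : R, r * s ∈ Dd p S ∧ s * r ∈ Dd p S

def I31Stmt : Prop := ∀ (p : ℕ) [Fact p.Prime] (R : Type u) [NonUnitalRing R]
  (π : Fin 3 → ZMod p) (B : Fin 3 → Fin 3 → ZMod p), Nat.card R = p ^ 4 →
  HasTab p R (tab31 π B) →
  ((π ≠ 0 ∨ B ≠ 0) → Nat.card (Dd p (⊤ : AddSubgroup R)) = p) ∧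
  (π = 0 → B = 0 → Nat.card (Dd p (⊤ : AddSubgroup R)) = 1)

def I22Stmt : Prop := ∀ (p : ℕ) [Fact p.Prime] (R : Type u) [NonUnitalRing R]
  (π : Fin 2 → Fin 2 → ZMod p) (B : Fin 2 → Fin 2 → Fin 2 → ZMod p), Nat.card R = p ^ 4 →
  Surj22 π B → HasTab p R (tab22 π B) →
  Nat.card (Dd p (⊤ : AddSubgroup R)) = p ^ 2 ∧
  Nat.card (Dd p (Dd p (⊤ : AddSubgroup R))) = 1

def I4AStmt : Prop := ∀ (p : ℕ) [Fact p.Prime] (R : Type u) [NonUnitalRing R]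
  (L : ZMod (p ^ 2)) (b c d : ZMod p), Nat.card R = p ^ 4 → HasTab p R (tab4a L b c d) →
  Nat.card (Dd p (⊤ : AddSubgroup R)) = p ^ 2 ∧
  Nat.card (Dd p (Dd p (⊤ : AddSubgroup R))) = p ∧ ∃ x : R, p ^ 2 • x ≠ 0

def I4BStmt : Prop := ∀ (p : ℕ) [Fact p.Prime] (R : Type u) [NonUnitalRing R]
  (b c d e : ZMod p), Nat.card R = p ^ 4 → HasTab p R (tab4b b c d e) →
  Nat.card (Dd p (⊤ : AddSubgroup R)) = p ^ 2 ∧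
  Nat.card (Dd p (Dd p (⊤ : AddSubgroup R))) = p ∧ ∀ x : R, p ^ 2 • x = 0

def I5IStmt : Prop := ∀ (p : ℕ) [Fact p.Prime] (R : Type u) [NonUnitalRing R]
  (α β γ : ZMod p), Nat.card R = p ^ 4 → (α ≠ 0 ∨ β ≠ 0 ∨ γ ≠ 0) →
  HasTab p R (tab5i α β γ) →
  Nat.card (Dd p (⊤ : AddSubgroup R)) = p ^ 3 ∧
  Nat.card (Dd p (Dd p (⊤ : AddSubgroup R))) = p

def I5AStmt : Prop := ∀ (p : ℕ) [Fact p.Prime] (R : Type u) [NonUnitalRing R]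
  (l m n : ZMod p), Nat.card R = p ^ 4 → HasTab p R (tab5a l m n) →
  Nat.card (Dd p (⊤ : AddSubgroup R)) = p ^ 3 ∧
  Nat.card (Dd p (Dd p (⊤ : AddSubgroup R))) = p ^ 2 ∧
  ∃ x : R, x * x ∉ Dd p (Dd p (⊤ : AddSubgroup R))

def I5BStmt : Prop := ∀ (p : ℕ) [Fact p.Prime] (R : Type u) [NonUnitalRing R]
  (c d : ZMod p), Nat.card R = p ^ 4 → HasTab p R (tab5b c d) →
  Nat.card (Dd p (⊤ : AddSubgroup R)) = p ^ 3 ∧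
  Nat.card (Dd p (Dd p (⊤ : AddSubgroup R))) = p ^ 2 ∧
  ∀ x : R, x * x ∈ Dd p (Dd p (⊤ : AddSubgroup R))

/-! ### From rings to tables -/

def X31Stmt : Prop := ∀ (p : ℕ) [Fact p.Prime] (R : Type u) [NonUnitalRing R],
  Nat.card R = p ^ 4 → IsNilp R →
  (Nat.card (Dd p (⊤ : AddSubgroup R)) = 1 ∨ Nat.card (Dd p (⊤ : AddSubgroup R)) = p) →
  ∃ π B, HasTab p R (tab31 (p := p) π B)

def X22Stmt : Prop := ∀ (p : ℕ) [Fact p.Prime] (R : Type u) [NonUnitalRing R],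
  Nat.card R = p ^ 4 → IsNilp R → Nat.card (Dd p (⊤ : AddSubgroup R)) = p ^ 2 →
  Nat.card (Dd p (Dd p (⊤ : AddSubgroup R))) = 1 →
  ∃ π B, Surj22 π B ∧ HasTab p R (tab22 (p := p) π B)

def X4Stmt : Prop := ∀ (p : ℕ) [Fact p.Prime] (R : Type u) [NonUnitalRing R],
  Nat.card R = p ^ 4 → IsNilp R → Nat.card (Dd p (⊤ : AddSubgroup R)) = p ^ 2 →
  Nat.card (Dd p (Dd p (⊤ : AddSubgroup R))) = p →
  (∃ (L : ZMod (p ^ 2)) (b c d : ZMod p), HasTab p R (tab4a L b c d)) ∨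
  ∃ b c d e : ZMod p, HasTab p R (tab4b b c d e)

def X5IStmt : Prop := ∀ (p : ℕ) [Fact p.Prime] (R : Type u) [NonUnitalRing R],
  Nat.card R = p ^ 4 → IsNilp R → Nat.card (Dd p (⊤ : AddSubgroup R)) = p ^ 3 →
  Nat.card (Dd p (Dd p (⊤ : AddSubgroup R))) = p →
  ∃ α β γ : ZMod p, (α ≠ 0 ∨ β ≠ 0 ∨ γ ≠ 0) ∧ HasTab p R (tab5i α β γ)

def X5JStmt : Prop := ∀ (p : ℕ) [Fact p.Prime] (R : Type u) [NonUnitalRing R],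
  Nat.card R = p ^ 4 → IsNilp R → Nat.card (Dd p (⊤ : AddSubgroup R)) = p ^ 3 →
  Nat.card (Dd p (Dd p (⊤ : AddSubgroup R))) = p ^ 2 →
  (∃ l m n : ZMod p, HasTab p R (tab5a l m n)) ∨ ∃ c d : ZMod p, HasTab p R (tab5b c d)

def XCStmt : Prop := ∀ (p : ℕ) [Fact p.Prime] (R : Type u) [NonUnitalRing R],
  Nat.card R = p ^ 4 → IsNilp R →
  Nat.card (Dd p (⊤ : AddSubgroup R)) = 1 ∨ Nat.card (Dd p (⊤ : AddSubgroup R)) = p ∨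
  (Nat.card (Dd p (⊤ : AddSubgroup R)) = p ^ 2 ∧
    (Nat.card (Dd p (Dd p (⊤ : AddSubgroup R))) = 1 ∨
      Nat.card (Dd p (Dd p (⊤ : AddSubgroup R))) = p)) ∨
  (Nat.card (Dd p (⊤ : AddSubgroup R)) = p ^ 3 ∧
    (Nat.card (Dd p (Dd p (⊤ : AddSubgroup R))) = p ∨
      Nat.card (Dd p (Dd p (⊤ : AddSubgroup R))) = p ^ 2))

/-! ### The theorem -/

/-- The classification. -/
def MainStmt : Prop := ∀ (p : ℕ) [Fact p.Prime],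
  ∃ (N : {T : Tab // Listed p T} → Type) (_ : ∀ T, NonUnitalRing (N T)),
    (∀ T, Nat.card (N T) = p ^ 4 ∧ IsNilp (N T) ∧ HasTab p (N T) T.1) ∧
    ∀ (R : Type u) [NonUnitalRing R], Nat.card R = p ^ 4 → IsNilp R →
      ∃! T, Nonempty (R ≃+* N T)

end Pool.NR
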