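import Pool.Agent.H97.NR.Fin3
import Pool.Agent.H13.NR.R4A
import Pool.Agent.H13.NR.U2E
import Pool.Agent.H13.NR.V2M
import Pool.Agent.H13.NR.Y3L
import Pool.Agent.H13.NR.Y3Z
import Pool.Agent.H22.NR.C3C
import Pool.Agent.H22.NR.C3H
import Pool.Agent.H22.NR.C3K
import Pool.Agent.H22.NR.C3P
import Pool.Agent.H22.NR.C3X
import Pool.Agent.H22.NR.KR1
import Pool.Agent.H22.NR.RB1
import Pool.Agent.H26.NR.V2C
import Pool.Agent.H26.NR.W3X
import Pool.Agent.H26.NR.Y3G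
import Pool.Agent.H27.NR.LIS
import Pool.Agent.H27.NR.NUM
import Pool.Agent.H28.NR.KR2
import Pool.Agent.H28.NR.RB2
import Pool.Agent.H31.NR.A2A
import Pool.Agent.H31.NR.A2E
import Pool.Agent.H31.NR.A2K
import Pool.Agent.H31.NR.A2M
import Pool.Agent.H31.NR.A2N
import Pool.Agent.H31.NR.A2S
import Pool.Agent.H32.NR.H4
import Pool.Agent.H32.NR.H5
import Pool.Agent.H32.NR.N2
import Pool.Agent.H34.NR.ARE
import Pool.Agent.H34.NR.ART
import Pool.Agent.H34.NR.CO1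
import Pool.Agent.H34.NR.CO2
import Pool.Agent.H34.NR.CO3
import Pool.Agent.H34.NR.CO4
import Pool.Agent.H34.NR.CRE
import Pool.Agent.H34.NR.LK1
import Pool.Agent.H34.NR.LK2
import Pool.Agent.H34.NR.LK3
import Pool.Agent.H36.NR.NRE
import Pool.Agent.H36.NR.Q
import Pool.Agent.H4.NR.D3A
import Pool.Agent.H4.NR.D3B
import Pool.Agent.H4.NR.D3G
import Pool.Agent.H4.NR.D3Q
import Pool.Agent.H4.NR.D3T
import Pool.Agent.H4.NR.D3U
import Pool.Agent.H4.NR.X3A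
import Pool.Agent.H4.NR.X3B
import Pool.Agent.H4.NR.X3C
import Pool.Agent.H4.NR.X3G
import Pool.Agent.H4.NR.X3Q
import Pool.Agent.H4.NR.X3T
import Pool.Agent.H4.NR.X3U
import Pool.Agent.H46.NR.R4B
import Pool.Agent.H46.NR.R5B
import Pool.Agent.H46.NR.V2S
import Pool.Agent.H46.NR.W3D
import Pool.Agent.H5.NR.KRE
import Pool.Agent.H5.NR.KRU
import Pool.Agent.H5.NR.N2M
import Pool.Agent.H5.NR.N2S
import Pool.Agent.H5.NR.NKR
import Pool.Agent.H5.NR.NNR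
import Pool.Agent.H5.NR.NPT
import Pool.Agent.H50.NR.RC1
import Pool.Agent.H50.NR.W3C
import Pool.Agent.H50.NR.Y3C
import Pool.Agent.H53.NR.B2D
import Pool.Agent.H53.NR.B2E
import Pool.Agent.H53.NR.B2J
import Pool.Agent.H53.NR.B2K
import Pool.Agent.H53.NR.B2M
import Pool.Agent.H53.NR.B2S
import Pool.Agent.H53.NR.B2X
import Pool.Agent.H53.NR.F2X
import Pool.Agent.H53.NR.M2D
import Pool.Agent.H53.NR.M2E
import Pool.Agent.H53.NR.M2J
import Pool.Agent.H53.NR.M2K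
import Pool.Agent.H53.NR.M2M
import Pool.Agent.H53.NR.M2O
import Pool.Agent.H53.NR.M2S
import Pool.Agent.H53.NR.M2T
import Pool.Agent.H58.NR.K3A
import Pool.Agent.H58.NR.K3B
import Pool.Agent.H58.NR.K3G
import Pool.Agent.H58.NR.K3Q
import Pool.Agent.H58.NR.K3S
import Pool.Agent.H58.NR.K3T
import Pool.Agent.H58.NR.K3U
import Pool.Agent.H64.NR.Fil
import Pool.Agent.H64.NR.X31
import Pool.Agent.H64.NR.X5I
import Pool.Agent.H64.NR.X5J
import Pool.Agent.H64.NR.XC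
import Pool.Agent.H66.NR.I5A
import Pool.Agent.H66.NR.I5B
import Pool.Agent.H66.NR.I5I
import Pool.Agent.H67.NR.BAS
import Pool.Agent.H67.NR.ISO
import Pool.Agent.H67.NR.RQ
import Pool.Agent.H67.NR.X4
import Pool.Agent.H7.NR.R5A
import Pool.Agent.H7.NR.R5I
import Pool.Agent.H7.NR.S4A
import Pool.Agent.H7.NR.S5A
import Pool.Agent.H7.NR.S5B
import Pool.Agent.H7.NR.S5I
import Pool.Agent.H70.NR.V2D
import Pool.Agent.H70.NR.V2E
import Pool.Agent.H70.NR.V2J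
import Pool.Agent.H70.NR.V2K
import Pool.Agent.H70.NR.V2O
import Pool.Agent.H8.NR.J3G
import Pool.Agent.H8.NR.J3L
import Pool.Agent.H8.NR.J3T
import Pool.Agent.H8.NR.J3Z
import Pool.Agent.H8.NR.L3C
import Pool.Agent.H8.NR.L3H
import Pool.Agent.H8.NR.L3N
import Pool.Agent.H8.NR.L3T
import Pool.Agent.H8.NR.L3X
import Pool.Agent.H80.NR.U2C
import Pool.Agent.H80.NR.U2M
import Pool.Agent.H80.NR.U2N
import Pool.Agent.H80.NR.U2S
import Pool.Agent.H85.NR.E3G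
import Pool.Agent.H85.NR.E3I
import Pool.Agent.H85.NR.E3K
import Pool.Agent.H85.NR.E3L
import Pool.Agent.H85.NR.E3R
import Pool.Agent.H85.NR.E3S
import Pool.Agent.H85.NR.E3Z
import Pool.Agent.H88.NR.I22
import Pool.Agent.H88.NR.I31
import Pool.Agent.H88.NR.I4A
import Pool.Agent.H88.NR.I4B
import Pool.Agent.H92.NR.C3N
import Pool.Agent.H92.NR.S4B
import Pool.Agent.H92.NR.W3H
import Pool.Agent.H92.NR.W3N
import Pool.Agent.H95.NR.B2O
import Pool.Agent.H95.NR.RC2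
import Pool.Agent.H95.NR.X22

/-! Assembly of project NR from its modules. -/

set_option linter.unusedVariables false

namespace Pool.NR

universe u

theorem final_all  : FinalStmt.{u} := by
  have m_KRE : KREStmt := kre
  have m_KRU : KRUStmt := kru
  have m_KR1 : KR1Stmt := kr1
  have m_KR2 : KR2Stmt := kr2 m_KRE m_KRU m_KR1
  have m_ARE : AREStmt := are
  have m_ART : ARTStmt := art
  have m_NRE : NREStmt := nre
  have m_NRU : NRUStmt := nru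
  have m_CRE : CREStmt := cre
  have m_Q2A : Q2aStmt := q2a
  have m_Q2B : Q2bStmt := q2b
  have m_Q3A : Q3aStmt := q3a
  have m_Q3B : Q3bStmt := q3b
  have m_Q3C : Q3cStmt := q3c
  have m_QT : QTStmt := qt
  have m_LK1 : LK1Stmt := lk1
  have m_LK2 : LK2Stmt := lk2
  have m_LK3 : LK3Stmt := lk3
  have m_A2A : A2AStmt := a2a
  have m_A2S : A2SStmt := a2s m_KRE m_KR1
  have m_A2K : A2KStmt := a2k
  have m_A2M : A2MStmt := a2m
  have m_A2E : A2EStmt := a2e m_KR2 m_KRE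
  have m_A2N : A2NStmt := a2n
  have m_U2S : U2SStmt := u2s m_KRU
  have m_U2M : U2MStmt := u2m
  have m_U2E : U2EStmt := u2e m_KR2
  have m_U2N : U2NStmt := u2n
  have m_U2C : U2CStmt := u2c
  have m_F2X : F2XStmt := f2x m_KRE m_KR1
  have m_B2X : B2XStmt := b2x m_F2X
  have m_B2O : B2OStmt := b2o
  have m_B2D : B2DStmt := b2d m_KRE
  have m_B2E : B2EStmt := b2e
  have m_B2J : B2JStmt := b2j
  have m_B2M : B2MStmt := b2m
  have m_B2K : B2KStmt := b2k m_KRE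
  have m_B2S : B2SStmt := b2s m_KR2
  have m_V2O : V2OStmt := v2o
  have m_V2D : V2DStmt := v2d m_KRU
  have m_V2E : V2EStmt := v2e
  have m_V2J : V2JStmt := v2j
  have m_V2M : V2MStmt := v2m
  have m_V2K : V2KStmt := v2k m_KRU
  have m_V2S : V2SStmt := v2s m_KR2 m_KRU
  have m_V2C : V2CStmt := v2c
  have m_C3C : C3CStmt := c3c m_ARE m_ART
  have m_C3K : C3KStmt := c3k m_KR2
  have m_C3X : C3XStmt := c3x
  have m_C3H : C3HStmt := c3h
  have m_C3N : C3NStmt := c3n m_KR2 m_NRE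
  have m_C3P : C3PStmt := c3p
  have m_W3C : W3CStmt := w3c
  have m_W3X : W3XStmt := w3x
  have m_W3H : W3HStmt := w3h
  have m_W3N : W3NStmt := w3n m_KR2 m_NRU
  have m_W3D : W3DStmt := w3d m_KR2
  have m_D3A : D3AStmt := d3a
  have m_D3G : D3GStmt := d3g m_KRE
  have m_D3B : D3BStmt := d3b m_KRE
  have m_D3Q : D3QStmt := d3q m_ARE m_ART
  have m_D3T : D3TStmt := d3t
  have m_D3U : D3UStmt := d3u
  have m_X3A : X3AStmt := x3a
  have m_X3G : X3GStmt := x3g m_KRU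
  have m_X3B : X3BStmt := x3b m_KRU
  have m_X3Q : X3QStmt := x3q m_ARE
  have m_X3T : X3TStmt := x3t
  have m_X3U : X3UStmt := x3u
  have m_X3C : X3CStmt := x3c
  have m_E3G : E3GStmt := e3g
  have m_E3K : E3KStmt := e3k
  have m_E3L : E3LStmt := e3l m_KRE
  have m_E3Z : E3ZStmt := e3z
  have m_E3R : E3RStmt := e3r m_KRE
  have m_E3S : E3SStmt := e3s
  have m_E3I : E3IStmt := e3i m_CRE
  have m_Y3G : Y3GStmt := y3g
  have m_Y3L : Y3LStmt := y3l m_KRU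
  have m_Y3Z : Y3ZStmt := y3z m_KRU m_CRE
  have m_Y3C : Y3CStmt := y3c
  have m_RQ : RQStmt := rq
  have m_CO1 : CO1Stmt := co1
  have m_CO2 : CO2Stmt := co2
  have m_CO3 : CO3Stmt := co3
  have m_CO4 : CO4Stmt := co4
  have m_BAS : BASStmt.{u} := bas
  have m_ISO : ISOStmt.{u, 0} := iso m_BAS
  have m_RB1 : RB1Stmt.{u} := rb1
  have m_RC1 : RC1Stmt.{u} := rc1 m_BAS
  have m_RB2 : RB2Stmt.{u} := rb2
  have m_RC2 : RC2Stmt.{u} := rc2 m_BAS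
  have m_R4A : R4AStmt.{u} := r4a m_KRE
  have m_S4A : S4AStmt.{u} := s4a m_BAS m_KRU
  have m_R4B : R4BStmt.{u} := r4b m_KRE
  have m_S4B : S4BStmt.{u} := s4b m_BAS m_KRU
  have m_R5I : R5IStmt.{u} := r5i m_KRE
  have m_S5I : S5IStmt.{u} := s5i m_BAS m_KRU
  have m_R5A : R5AStmt.{u} := r5a m_KRE
  have m_S5A : S5AStmt.{u} := s5a m_BAS m_KRU
  have m_R5B : R5BStmt.{u} := r5b
  have m_S5B : S5BStmt.{u} := s5b m_BAS
  have m_FIL : FILStmt.{u} := fil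
  have m_I31 : I31Stmt.{u} := i31 m_BAS
  have m_I22 : I22Stmt.{u} := i22 m_BAS
  have m_I4A : I4AStmt.{u} := i4a m_BAS
  have m_I4B : I4BStmt.{u} := i4b m_BAS
  have m_I5I : I5IStmt.{u} := i5i m_BAS
  have m_I5A : I5AStmt.{u} := i5a m_BAS
  have m_I5B : I5BStmt.{u} := i5b m_BAS
  have m_X31 : X31Stmt.{u} := x31 m_FIL
  have m_X22 : X22Stmt.{u} := x22 m_FIL
  have m_X4 : X4Stmt.{u} := x4 m_FIL
  have m_X5I : X5IStmt.{u} := x5i m_FIL
  have m_X5J : X5JStmt.{u} := x5j m_FIL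
  have m_XC : XCStmt.{u} := xc m_FIL
  have m_NKR : NKRStmt := nkr m_KRE m_KRU
  have m_NPT : NPTStmt := npt m_KR2
  have m_NNR : NNRStmt := nnr m_NRE m_NRU
  have m_N2S : N2SStmt := n2s m_NKR m_NPT
  have m_N2M : N2MStmt := n2m
  have m_N2E : N2EStmt := n2e m_NKR
  have m_N2N : N2NStmt := n2n m_NPT
  have m_N2A : N2AStmt := n2a m_N2S m_N2M m_N2E m_N2N
  have m_M2O : M2OStmt := m2o m_NPT
  have m_M2D : M2DStmt := m2d m_NPT
  have m_M2E : M2EStmt := m2e m_NPT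
  have m_M2J : M2JStmt := m2j m_NPT
  have m_M2M : M2MStmt := m2m m_NPT
  have m_M2K : M2KStmt := m2k m_NPT
  have m_M2S : M2SStmt := m2s m_NKR m_NPT
  have m_M2T : M2TStmt := m2t m_M2O m_M2D m_M2E m_M2J m_M2M m_M2K m_M2S
  have m_L3C : L3CStmt := l3c m_ARE
  have m_L3X : L3XStmt := l3x m_NPT
  have m_L3H : L3HStmt := l3h m_NPT
  have m_L3N : L3NStmt := l3n m_NNR m_NKR
  have m_L3T : L3TStmt := l3t m_L3C m_L3X m_L3H m_L3N
  have m_K3A : K3AStmt := k3a m_NPT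
  have m_K3G : K3GStmt := k3g m_NPT m_NKR
  have m_K3B : K3BStmt := k3b m_NPT
  have m_K3Q : K3QStmt := k3q m_ARE m_NPT
  have m_K3T : K3TStmt := k3t m_NPT
  have m_K3U : K3UStmt := k3u m_NPT
  have m_K3S : K3SStmt := k3s m_K3A m_K3G m_K3B m_K3Q m_K3T m_K3U
  have m_J3G : J3GStmt := j3g
  have m_J3L : J3LStmt := j3l m_NPT m_NKR
  have m_J3Z : J3ZStmt := j3z m_NPT m_NKR m_CRE
  have m_J3T : J3TStmt := j3t m_J3G m_J3L m_J3Z
  have m_H4A : H4AStmt := h4a m_NPT m_NKR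
  have m_H4B : H4BStmt := h4b m_NPT m_NKR
  have m_H5I : H5IStmt := h5i m_NPT
  have m_H5A : H5AStmt := h5a m_NKR
  have m_H5B : H5BStmt := h5b
  have m_LIS : LISStmt := lis
  have m_NUM : NUMStmt := num m_LIS m_N2A m_M2T m_L3T m_K3S m_J3T m_H4A m_H4B m_H5I m_H5A m_H5B
  have x2a := ex2a m_A2A m_A2S m_A2K m_A2M m_A2E m_A2N m_Q2A
  have u2a := un2a m_U2S m_U2M m_U2E m_U2N m_U2C
  have x2b := ex2b m_B2X m_B2O m_B2D m_B2E m_B2J m_B2M m_B2K m_B2S m_Q2B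
  have u2b := un2b m_V2O m_V2D m_V2E m_V2J m_V2M m_V2K m_V2S m_V2C
  have x3a := ex3a m_C3C m_C3K m_C3X m_C3H m_C3N m_C3P m_Q3A
  have u3a := un3a m_W3C m_W3X m_W3H m_W3N m_W3D
  have x3b := ex3b m_D3A m_D3G m_D3B m_D3Q m_D3T m_D3U
  have u3b := un3b m_X3A m_X3G m_X3B m_X3Q m_X3T m_X3U m_X3C
  have x3c := ex3c m_E3G m_E3K m_E3L m_E3Z m_E3R m_E3S m_E3I m_Q3C
  have u3c := un3c m_Y3G m_Y3L m_Y3Z m_Y3C
  have hEX := exr x2a x2b x3a x3b x3c m_XC m_X31 m_X22 m_X4 m_X5I m_X5J m_LK1 m_LK2 m_LK3 m_QT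
    m_RB1 m_RB2 m_R4A m_R4B m_R5I m_R5A m_R5B
  have hUN := unr u2a u2b u3a u3b u3c m_I31 m_I22 m_I4A m_I4B m_I5I m_I5A m_I5B m_LK1 m_LK2
    m_LK3 m_RC1 m_RC2 m_S4A m_S4B m_S5I m_S5A m_S5B
  exact final_of hEX hUN m_CO1 m_CO2 m_CO3 m_CO4 m_RQ m_ISO m_NUM

end Pool.NR
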