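import Mathlib

/-!
Nilpotent rings of order `p ^ 4`.

A ring is associative, need not be commutative and need not have an identity (`NonUnitalRing`).
-/

set_option linter.unusedVariables false

namespace Pool.NR

/-- `R` is nilpotent: there is `n` such that every product of at least `n + 1` elements is `0`. -/
def IsNilp (R : Type*) [NonUnitalRing R] : Prop :=
  ∃ n : ℕ, ∀ (x : R) (l : List R), n ≤ l.length → l.foldl (· * ·) x = 0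

/-- A table of defining relations in four generators `g 0, g 1, g 2, g 3`:
`p g_i = ∑ j, P i j g_j` and `g_i g_j = ∑ k, M i j k g_k`. -/
@[ext] structure Tab where
  P : Fin 4 → Fin 4 → ℕ
  M : Fin 4 → Fin 4 → Fin 4 → ℕ

/-- `R` is additively generated by four elements satisfying the relations of the table `T`. -/
def HasTab (p : ℕ) (R : Type*) [NonUnitalRing R] (T : Tab) : Prop :=
  ∃ g : Fin 4 → R, AddSubgroup.closure (Set.range g) = ⊤ ∧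
    (∀ i, p • g i = ∑ j, T.P i j • g j) ∧
    ∀ i j, g i * g j = ∑ k, T.M i j k • g k

variable {p : ℕ}

/-- The table with `p g_i = π_i g_3`, `g_i g_j = B_ij g_3` for `i, j < 3`; all other
multiples and products of generators are `0`. -/
def tab31 (π : Fin 3 → ZMod p) (B : Fin 3 → Fin 3 → ZMod p) : Tab where
  P := ![![0, 0, 0, (π 0).val], ![0, 0, 0, (π 1).val], ![0, 0, 0, (π 2).val], 0]
  M := ![![![0, 0, 0, (B 0 0).val], ![0, 0, 0, (B 0 1).val], ![0, 0, 0, (B 0 2).val], 0],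
    ![![0, 0, 0, (B 1 0).val], ![0, 0, 0, (B 1 1).val], ![0, 0, 0, (B 1 2).val], 0],
    ![![0, 0, 0, (B 2 0).val], ![0, 0, 0, (B 2 1).val], ![0, 0, 0, (B 2 2).val], 0], 0]

/-- The table with `p g_i = π_i0 g_2 + π_i1 g_3`, `g_i g_j = B_0ij g_2 + B_1ij g_3`
for `i, j < 2`; all other multiples and products of generators are `0`. -/
def tab22 (π : Fin 2 → Fin 2 → ZMod p) (B : Fin 2 → Fin 2 → Fin 2 → ZMod p) : Tab where
  P := ![![0, 0, (π 0 0).val, (π 0 1).val], ![0, 0, (π 1 0).val, (π 1 1).val], 0, 0]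
  M := ![![![0, 0, (B 0 0 0).val, (B 1 0 0).val], ![0, 0, (B 0 0 1).val, (B 1 0 1).val], 0, 0],
    ![![0, 0, (B 0 1 0).val, (B 1 1 0).val], ![0, 0, (B 0 1 1).val, (B 1 1 1).val], 0, 0],
    0, 0]

/-- Generators `x, y, w, z`: `p x = w`, `p w = z`, `x x = L w`, `x w = w x = L z`,
`x y = b z`, `y x = c z`, `y y = d z`; everything else is `0`. -/
def tab4a (L : ZMod (p ^ 2)) (b c d : ZMod p) : Tab where
  P := ![![0, 0, 1, 0], 0, ![0, 0, 0, 1], 0]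
  M := ![![![0, 0, L.val, 0], ![0, 0, 0, b.val], ![0, 0, 0, L.val], 0],
    ![![0, 0, 0, c.val], ![0, 0, 0, d.val], 0, 0],
    ![![0, 0, 0, L.val], 0, 0, 0], 0]

/-- Generators `x, y, w, z`: `p x = d z`, `p y = e z`, `x x = w`, `x w = w x = z`,
`y x = b z`, `y y = c z`; everything else is `0`. -/
def tab4b (b c d e : ZMod p) : Tab where
  P := ![![0, 0, 0, d.val], ![0, 0, 0, e.val], 0, 0]
  M := ![![![0, 0, 1, 0], 0, ![0, 0, 0, 1], 0],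
    ![![0, 0, 0, b.val], ![0, 0, 0, c.val], 0, 0],
    ![![0, 0, 0, 1], 0, 0, 0], 0]

/-- Generators `x, v, w, z`: `p x = v`, `p v = γ z`, `p w = β z`, `x x = w`,
`x v = v x = β z`, `x w = w x = α z`; everything else is `0`. -/
def tab5i (α β γ : ZMod p) : Tab where
  P := ![![0, 1, 0, 0], ![0, 0, 0, γ.val], ![0, 0, 0, β.val], 0]
  M := ![![![0, 0, 1, 0], ![0, 0, 0, β.val], ![0, 0, 0, α.val], 0],
    ![![0, 0, 0, β.val], 0, 0, 0],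
    ![![0, 0, 0, α.val], 0, 0, 0], 0]

/-- Generators `x, x ^ 2, x ^ 3, x ^ 4`, `x ^ 5 = 0`: `p x = l x ^ 2 + m x ^ 3 + n x ^ 4`. -/
def tab5a (l m n : ZMod p) : Tab where
  P := ![![0, l.val, m.val, n.val], ![0, 0, l.val, m.val], ![0, 0, 0, l.val], 0]
  M := ![![![0, 1, 0, 0], ![0, 0, 1, 0], ![0, 0, 0, 1], 0],
    ![![0, 0, 1, 0], ![0, 0, 0, 1], 0, 0],
    ![![0, 0, 0, 1], 0, 0, 0], 0]

/-- Generators `x, p x, p ^ 2 x, p ^ 3 x`, `p ^ 4 x = 0`: `x x = c p ^ 2 x + d p ^ 3 x`. -/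
def tab5b (c d : ZMod p) : Tab where
  P := ![![0, 1, 0, 0], ![0, 0, 1, 0], ![0, 0, 0, 1], 0]
  M := ![![![0, 0, c.val, d.val], ![0, 0, 0, c.val], 0, 0],
    ![![0, 0, 0, c.val], 0, 0, 0], 0, 0]

/-- `s` is the least residue of its class modulo `k`-th powers of units. -/
def KRep (p k : ℕ) (s : ZMod p) : Prop :=
  s ≠ 0 ∧ ∀ t : ZMod p, t ≠ 0 → s.val ≤ (s * t ^ k).val

/-- `a` is the least residue such that `X ^ 2 + X + a` has no root. -/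
def ARep (p : ℕ) (a : ZMod p) : Prop :=
  (∀ x : ZMod p, x ^ 2 + x + a ≠ 0) ∧
    ∀ b : ZMod p, (∀ x : ZMod p, x ^ 2 + x + b ≠ 0) → a.val ≤ b.val

/-- `(a, b)` is the first pair (lexicographic order of least residues) with its value of
`b ^ 2 - s a ^ 2`. -/
def NRep (p : ℕ) (s a b : ZMod p) : Prop :=
  ∀ a' b' : ZMod p, b' ^ 2 - s * a' ^ 2 = b ^ 2 - s * a ^ 2 →
    a.val < a'.val ∨ (a = a' ∧ b.val ≤ b'.val)

/-- `(a, d)` is the first pair (lexicographic order of least residues) such that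
`X ^ 3 + 3 a X - d` has no root. -/
def CRep (p : ℕ) (a d : ZMod p) : Prop :=
  (∀ t : ZMod p, t ^ 3 + 3 * a * t - d ≠ 0) ∧
    ∀ a' d' : ZMod p, (∀ t : ZMod p, t ^ 3 + 3 * a' * t - d' ≠ 0) →
      a.val < a'.val ∨ (a = a' ∧ d.val ≤ d'.val)

/-- `(b, c)` is `(1, c)` or `(0, 1)`. -/
def Pt (b c : ZMod p) : Prop := b = 1 ∨ (b = 0 ∧ c = 1)

/-- `(b, c)` is `(0, 0)`, `(1, c)` or `(0, 1)`. -/
def Pt0 (b c : ZMod p) : Prop := (b = 0 ∧ c = 0) ∨ Pt b c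

/-- `a` is `0` or `1`. -/
def Bit (a : ZMod p) : Prop := a = 0 ∨ a = 1

/-- `a` is `0` or the representative of its class modulo squares. -/
def Sq0 (a : ZMod p) : Prop := a = 0 ∨ KRep p 2 a

/-- `3 x 3` normal forms, `p R = 0`, product symmetric but not alternating. -/
inductive NF2aS : (Fin 3 → Fin 3 → ZMod p) → Prop
  | r1 : NF2aS ![![1, 0, 0], ![0, 0, 0], ![0, 0, 0]]
  | r2 (s : ZMod p) : KRep p 2 s → NF2aS ![![1, 0, 0], ![0, s, 0], ![0, 0, 0]]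
  | r3 : NF2aS ![![1, 0, 0], ![0, 1, 0], ![0, 0, 1]]

/-- `3 x 3` normal forms, `p R = 0`, neither symmetric nor alternating, with a generator
annihilating everything. -/
inductive NF2aM : (Fin 3 → Fin 3 → ZMod p) → Prop
  | m (δ : ZMod p) : NF2aM ![![1, 1, 0], ![0, δ, 0], ![0, 0, 0]]

/-- `3 x 3` normal forms, `p R = 0`, not symmetric, `B (x_0, x_0) ≠ 0` for the kernel `x_0` of
`B - B^T`. -/
inductive NF2aE : (Fin 3 → Fin 3 → ZMod p) → Prop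
  | m1 (δ : ZMod p) : NF2aE ![![1, 0, 0], ![0, 1, 1], ![0, 0, δ]]
  | j1 : p ≠ 2 → NF2aE ![![1, 0, 0], ![0, 0, 1], ![0, -1, 0]]
  | e1 (s : ZMod p) : p ≠ 2 → KRep p 2 s → s ≠ 1 →
      NF2aE ![![1, 0, 0], ![0, s, 1], ![0, 0, (4 * s)⁻¹]]

/-- `3 x 3` normal forms, `p R = 0`, not symmetric, `B (x_0, x_0) = 0`, `B (x_0, -) ≠ 0` for the
kernel `x_0` of `B - B^T`. -/
inductive NF2aN : (Fin 3 → Fin 3 → ZMod p) → Prop
  | n1 (s : ZMod p) : Bit s → NF2aN ![![0, 1, 0], ![1, 0, 0], ![0, 1, s]]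
  | n2 : p = 2 → NF2aN ![![0, 1, 0], ![1, 1, 0], ![0, 1, 1]]

/-- Normal forms of nonzero `3 x 3` tables with `p R = 0`. -/
inductive NF2a : (Fin 3 → Fin 3 → ZMod p) → Prop
  | alt : NF2a ![![0, 1, 0], ![-1, 0, 0], ![0, 0, 0]]
  | s (B : Fin 3 → Fin 3 → ZMod p) : NF2aS B → NF2a B
  | m (B : Fin 3 → Fin 3 → ZMod p) : NF2aM B → NF2a B
  | e (B : Fin 3 → Fin 3 → ZMod p) : NF2aE B → NF2a B
  | n (B : Fin 3 → Fin 3 → ZMod p) : NF2aN B → NF2a B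

/-- The `3 x 3` table with `x x = a`, `x y_j = b_j`, `y_i x = c_i`, `y_i y_j = m_ij`
(all multiples of `z`). -/
def T2b (a b1 b2 c1 c2 m11 m12 m21 m22 : ZMod p) : Fin 3 → Fin 3 → ZMod p :=
  ![![a, b1, b2], ![c1, m11, m12], ![c2, m21, m22]]

/-- `p x = z`, `p y_1 = p y_2 = 0`; `M = 0`. -/
inductive NF2bO : (Fin 3 → Fin 3 → ZMod p) → Prop
  | o1 : NF2bO (T2b 0 1 0 0 1 0 0 0 0)
  | o2 (γ : ZMod p) : γ ≠ -1 → NF2bO (T2b 0 1 0 γ 0 0 0 0 0)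
  | o3 : NF2bO (T2b 0 0 0 1 0 0 0 0 0)
  | o4 (a : ZMod p) : Bit a → NF2bO (T2b a 1 0 (-1) 0 0 0 0 0)
  | o5 (a : ZMod p) : Bit a → NF2bO (T2b a 0 0 0 0 0 0 0 0)

/-- `p x = z`, `p y_1 = p y_2 = 0`; `M` symmetric of rank one. -/
inductive NF2bD : (Fin 3 → Fin 3 → ZMod p) → Prop
  | d1 (a : ZMod p) : NF2bD (T2b a 0 0 1 0 1 0 0 0)
  | d2 (a : ZMod p) : Sq0 a → NF2bD (T2b a 0 0 0 0 1 0 0 0)
  | d3 (γ : ZMod p) : γ ≠ 1 → γ ≠ -1 → NF2bD (T2b 0 0 1 0 γ 1 0 0 0)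
  | d4 : NF2bD (T2b 0 0 0 0 1 1 0 0 0)
  | d5 (a : ZMod p) : p ≠ 2 → Sq0 a → NF2bD (T2b a 0 1 0 (-1) 1 0 0 0)
  | d6 (s : ZMod p) : Bit s → NF2bD (T2b 0 0 1 s 1 1 0 0 0)
  | d7 : p = 2 → NF2bD (T2b 1 0 1 1 1 1 0 0 0)

/-- `p x = z`, `p y_1 = p y_2 = 0`; `M` not symmetric of rank one. -/
inductive NF2bE : (Fin 3 → Fin 3 → ZMod p) → Prop
  | e1 (a : ZMod p) : NF2bE (T2b a 1 0 0 1 0 1 0 0)
  | e2 (a : ZMod p) : Bit a → NF2bE (T2b a 1 0 0 0 0 1 0 0)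
  | e3 (a : ZMod p) : Bit a → NF2bE (T2b a 0 0 0 1 0 1 0 0)
  | e4 (a : ZMod p) : Bit a → NF2bE (T2b a 0 0 0 0 0 1 0 0)

/-- `p x = z`, `p y_1 = p y_2 = 0`; `M` alternating, nonzero. -/
inductive NF2bJ : (Fin 3 → Fin 3 → ZMod p) → Prop
  | j1 (a : ZMod p) : Bit a → NF2bJ (T2b a 0 0 0 0 0 1 (-1) 0)
  | j2 (a : ZMod p) : Bit a → NF2bJ (T2b a 0 0 1 0 0 1 (-1) 0)

/-- `p x = z`, `p y_1 = p y_2 = 0`; `M` not symmetric, `det M ≠ 0`,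
`4 det M ≠ (m_12 - m_21) ^ 2`. -/
inductive NF2bM : (Fin 3 → Fin 3 → ZMod p) → Prop
  | m1 (δ a : ZMod p) : δ ≠ 0 → 4 * δ ≠ 1 → Bit a → NF2bM (T2b a 0 0 0 0 1 1 0 δ)
  | m2 (δ a : ZMod p) : δ ≠ 0 → 4 * δ ≠ 1 → NF2bM (T2b a 0 0 0 1 1 1 0 δ)
  | m3 (τ a : ZMod p) : τ ≠ 0 → τ ≠ 1 → τ ≠ -1 → Bit a → NF2bM (T2b a 0 0 1 0 0 1 τ 0)

/-- `p x = z`, `p y_1 = p y_2 = 0`; `M` not symmetric, not alternating,
`4 det M = (m_12 - m_21) ^ 2`. -/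
inductive NF2bK : (Fin 3 → Fin 3 → ZMod p) → Prop
  | k1 (a : ZMod p) : p ≠ 2 → Sq0 a → NF2bK (T2b a 0 0 0 0 1 1 (-1) 0)
  | k2 (a : ZMod p) : p ≠ 2 → NF2bK (T2b a 0 0 1 0 1 1 (-1) 0)
  | k3 (a : ZMod p) : p ≠ 2 → NF2bK (T2b a 0 0 0 1 1 1 (-1) 0)

/-- `p x = z`, `p y_1 = p y_2 = 0`; `M` symmetric, not alternating, of rank two. -/
inductive NF2bS : (Fin 3 → Fin 3 → ZMod p) → Prop
  | s1 (s a : ZMod p) : KRep p 2 s → Bit a → NF2bS (T2b a 0 0 0 0 1 0 0 s)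
  | s2 (s a : ZMod p) : KRep p 2 s → NF2bS (T2b a 0 0 0 1 1 0 0 s)
  | s3 (a : ZMod p) : p ≠ 2 → Bit a → NF2bS (T2b a 0 0 1 0 0 1 1 0)
  | s4 (a : ZMod p) : p = 2 → Bit a → NF2bS (T2b a 0 0 1 1 1 0 0 1)

/-- Normal forms for `p x = z`, `p y_1 = p y_2 = 0`. -/
inductive NF2b : (Fin 3 → Fin 3 → ZMod p) → Prop
  | o (B : Fin 3 → Fin 3 → ZMod p) : NF2bO B → NF2b B
  | d (B : Fin 3 → Fin 3 → ZMod p) : NF2bD B → NF2b B
  | e (B : Fin 3 → Fin 3 → ZMod p) : NF2bE B → NF2b B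
  | j (B : Fin 3 → Fin 3 → ZMod p) : NF2bJ B → NF2b B
  | m (B : Fin 3 → Fin 3 → ZMod p) : NF2bM B → NF2b B
  | k (B : Fin 3 → Fin 3 → ZMod p) : NF2bK B → NF2b B
  | s (B : Fin 3 → Fin 3 → ZMod p) : NF2bS B → NF2b B

/-- The pair of `2 x 2` tables `x x = a w + A w'`, `x y = b w + B w'`, `y x = c w + C w'`,
`y y = d w + D w'`. -/
def T22 (a b c d A B C D : ZMod p) : Fin 2 → Fin 2 → Fin 2 → ZMod p :=
  ![![![a, b], ![c, d]], ![![A, B], ![C, D]]]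

/-- Two generators, `p R = 0`, `R ^ 2` of order `p ^ 2`, `R ^ 3 = 0`, commutative. -/
inductive NF3aC : (Fin 2 → Fin 2 → Fin 2 → ZMod p) → Prop
  | c1 : NF3aC (T22 1 0 0 0 0 0 0 1)
  | c2 (a : ZMod p) : ARep p a → NF3aC (T22 1 0 0 (-a) 0 1 1 (-1))
  | c3 : NF3aC (T22 1 0 0 0 0 1 1 0)

/-- As `NF3aC`, not commutative, the symmetric form in the pencil has rank one. -/
inductive NF3aX : (Fin 2 → Fin 2 → Fin 2 → ZMod p) → Prop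
  | x1 (τ : ZMod p) : τ ≠ 1 → NF3aX (T22 1 0 0 0 0 1 τ 0)
  | x2 : NF3aX (T22 1 0 0 0 0 0 1 0)
  | x3 : NF3aX (T22 1 0 0 0 0 1 0 1)

/-- As `NF3aC`, not commutative, the symmetric form in the pencil is a multiple of
`x y + y x` in some basis. -/
inductive NF3aH : (Fin 2 → Fin 2 → Fin 2 → ZMod p) → Prop
  | h1 : NF3aH (T22 0 1 0 0 0 0 1 0)
  | h2 (m : ZMod p) : (p ≠ 2 ∨ m ≠ 0) → NF3aH (T22 0 1 1 0 1 1 0 m)

/-- As `NF3aC`, not commutative, the other symmetric forms in the pencil. -/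
inductive NF3aN : (Fin 2 → Fin 2 → Fin 2 → ZMod p) → Prop
  | n1 (s a b : ZMod p) : p ≠ 2 → KRep p 2 s → s ≠ 1 → NRep p s a b →
      NF3aN (T22 1 0 0 (-s) a (b + 1) (b - 1) (s * a))
  | n2 (a : ZMod p) : p = 2 → NF3aN (T22 1 0 0 1 a 1 0 0)

/-- Normal forms with two generators, `p R = 0`, `R ^ 2` of order `p ^ 2`, `R ^ 3 = 0`. -/
inductive NF3a : (Fin 2 → Fin 2 → Fin 2 → ZMod p) → Prop
  | c (B : Fin 2 → Fin 2 → Fin 2 → ZMod p) : NF3aC B → NF3a B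
  | x (B : Fin 2 → Fin 2 → Fin 2 → ZMod p) : NF3aX B → NF3a B
  | h (B : Fin 2 → Fin 2 → Fin 2 → ZMod p) : NF3aH B → NF3a B
  | n (B : Fin 2 → Fin 2 → Fin 2 → ZMod p) : NF3aN B → NF3a B

/-- Two generators, `p x = w`, `p y = 0`; `D ≠ 0`, `B ≠ C`. -/
inductive NF3bA1 : (Fin 2 → Fin 2 → Fin 2 → ZMod p) → Prop
  | a1 (α a b c : ZMod p) : (a = 1 ∨ (a = 0 ∧ Pt0 b c)) → NF3bA1 (T22 a b c 0 α 0 1 1)

/-- Two generators, `p x = w`, `p y = 0`; `D ≠ 0`, `B = C`. -/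
inductive NF3bA2 : (Fin 2 → Fin 2 → Fin 2 → ZMod p) → Prop
  | a2 (a b c : ZMod p) : Bit a → Pt0 b c → NF3bA2 (T22 a b c 0 0 0 0 1)
  | a3 (α b c : ZMod p) : α ≠ 0 → Pt b c → NF3bA2 (T22 1 b c 0 α 0 0 1)
  | a4 (α a : ZMod p) : KRep p 2 α → Bit a → NF3bA2 (T22 a 0 0 0 α 0 0 1)
  | a5 (α b c : ZMod p) : KRep p 2 α → Pt b c → NF3bA2 (T22 0 b c 0 α 0 0 1)

/-- Two generators, `p x = w`, `p y = 0`; `D = 0`, `B + C ≠ 0`. -/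
inductive NF3bB : (Fin 2 → Fin 2 → Fin 2 → ZMod p) → Prop
  | b1 (γ d : ZMod p) : γ ≠ -1 → NF3bB (T22 1 0 1 d 0 1 γ 0)
  | b2 (γ d : ZMod p) : γ ≠ -1 → Sq0 d → NF3bB (T22 1 0 0 d 0 1 γ 0)
  | b3 (γ c d : ZMod p) : γ ≠ -1 → Bit c → Bit d → NF3bB (T22 0 0 c d 0 1 γ 0)
  | b4 (d : ZMod p) : NF3bB (T22 1 1 0 d 0 0 1 0)
  | b5 (d : ZMod p) : Sq0 d → NF3bB (T22 1 0 0 d 0 0 1 0)
  | b6 (b d : ZMod p) : Bit b → Bit d → NF3bB (T22 0 b 0 d 0 0 1 0)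

/-- Two generators, `p x = w`, `p y = 0`; `D = 0`, `B + C = 0`, `B ≠ 0`, `A = 0`. -/
inductive NF3bQ : (Fin 2 → Fin 2 → Fin 2 → ZMod p) → Prop
  | q1 : NF3bQ (T22 0 0 0 1 0 1 (-1) 0)
  | q2 : NF3bQ (T22 0 0 1 1 0 1 (-1) 0)
  | q3 (a : ZMod p) : ARep p a → NF3bQ (T22 a 0 1 1 0 1 (-1) 0)
  | q4 : NF3bQ (T22 0 0 1 0 0 1 (-1) 0)
  | q5 (a : ZMod p) : Bit a → NF3bQ (T22 a 0 0 0 0 1 (-1) 0)

/-- Two generators, `p x = w`, `p y = 0`; `D = 0`, `B + C = 0`, `B ≠ 0`, `A ≠ 0`. -/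
inductive NF3bT : (Fin 2 → Fin 2 → Fin 2 → ZMod p) → Prop
  | t1 (a : ZMod p) : NF3bT (T22 a 0 0 1 1 1 (-1) 0)
  | t2 : p = 2 → NF3bT (T22 0 0 1 1 1 1 (-1) 0)
  | t3 : NF3bT (T22 0 0 1 0 1 1 (-1) 0)
  | t4 (a : ZMod p) : Bit a → NF3bT (T22 a 0 0 0 1 1 (-1) 0)

/-- Two generators, `p x = w`, `p y = 0`; `B = C = D = 0`. -/
inductive NF3bU : (Fin 2 → Fin 2 → Fin 2 → ZMod p) → Prop
  | u1 (c : ZMod p) : Bit c → NF3bU (T22 0 0 c 1 1 0 0 0)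
  | u2 (b c : ZMod p) : Pt0 b c → NF3bU (T22 0 b c 0 1 0 0 0)

/-- Normal forms with two generators, `p x = w`, `p y = 0`. -/
inductive NF3b : (Fin 2 → Fin 2 → Fin 2 → ZMod p) → Prop
  | a1 (B : Fin 2 → Fin 2 → Fin 2 → ZMod p) : NF3bA1 B → NF3b B
  | a2 (B : Fin 2 → Fin 2 → Fin 2 → ZMod p) : NF3bA2 B → NF3b B
  | b (B : Fin 2 → Fin 2 → Fin 2 → ZMod p) : NF3bB B → NF3b B
  | q (B : Fin 2 → Fin 2 → Fin 2 → ZMod p) : NF3bQ B → NF3b B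
  | t (B : Fin 2 → Fin 2 → Fin 2 → ZMod p) : NF3bT B → NF3b B
  | u (B : Fin 2 → Fin 2 → Fin 2 → ZMod p) : NF3bU B → NF3b B

/-- `x x = a w + d w'`, `x y = -e w + (α - a) w'`, `y x = -e w + (β - a) w'`,
`y y = c w + e w'`. -/
def T3c (α β a c d e : ZMod p) : Fin 2 → Fin 2 → Fin 2 → ZMod p :=
  T22 a (-e) (-e) c d (α - a) (β - a) e

/-- Two generators, `p x = w`, `p y = w'`; left and right trace linearly independent. -/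
inductive NF3cG : (Fin 2 → Fin 2 → Fin 2 → ZMod p) → Prop
  | g (a c d e : ZMod p) : NF3cG (T22 a (1 - e) (-e) c d (1 - a) (-a) e)

/-- Two generators, `p x = w`, `p y = w'`; left and right trace linearly dependent, not both
zero. -/
inductive NF3cL : (Fin 2 → Fin 2 → Fin 2 → ZMod p) → Prop
  | l1 (α β a c : ZMod p) : Pt α β → c ≠ 0 → NF3cL (T3c α β a c 1 0)
  | l2 (α β a c : ZMod p) : Pt α β → KRep p 2 c → NF3cL (T3c α β a c 0 0)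
  | l3 (α β d : ZMod p) : Pt α β → p ≠ 2 → NF3cL (T3c α β 0 0 d 1)
  | l4 (α β : ZMod p) : Pt α β → p = 2 → NF3cL (T3c α β (α + β) 0 0 1)
  | l5 (α β d : ZMod p) : Pt α β → p = 2 → NF3cL (T3c α β (α + β + 1) 0 d 1)
  | l6 (α β a : ZMod p) : Pt α β → NF3cL (T3c α β a 0 0 0)
  | l7 (α β a : ZMod p) : Pt α β → 3 * a = α + β → NF3cL (T3c α β a 0 1 0)

/-- Two generators, `p x = w`, `p y = w'`; left and right trace zero. -/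
inductive NF3cZ : (Fin 2 → Fin 2 → Fin 2 → ZMod p) → Prop
  | z1 (d : ZMod p) : Bit d → NF3cZ (T3c 0 0 0 0 d 0)
  | z2 : NF3cZ (T3c 0 0 0 0 0 1)
  | z3 (s : ZMod p) : p ≠ 2 → KRep p 2 s → NF3cZ (T3c 0 0 0 0 s 1)
  | z4 (d : ZMod p) : p = 2 → NF3cZ (T3c 0 0 1 0 d 1)
  | z5 (a d : ZMod p) : p ≠ 3 → CRep p a d → NF3cZ (T3c 0 0 a 1 d 0)
  | z6 : p = 3 → NF3cZ (T3c 0 0 1 0 1 0)

/-- Normal forms with two generators, `p x = w`, `p y = w'`. -/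
inductive NF3c : (Fin 2 → Fin 2 → Fin 2 → ZMod p) → Prop
  | g (B : Fin 2 → Fin 2 → Fin 2 → ZMod p) : NF3cG B → NF3c B
  | l (B : Fin 2 → Fin 2 → Fin 2 → ZMod p) : NF3cL B → NF3c B
  | z (B : Fin 2 → Fin 2 → Fin 2 → ZMod p) : NF3cZ B → NF3c B

/-- Normal forms with table `tab4a`. -/
inductive NF4a : ZMod (p ^ 2) → ZMod p → ZMod p → ZMod p → Prop
  | a1 (d : ZMod p) : d ≠ 0 → NF4a 1 0 1 d
  | a2 (d : ZMod p) : KRep p 2 d → NF4a 1 0 0 d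
  | a3 (b c : ZMod p) : Pt0 b c → NF4a 1 b c 0
  | b1 (d : ZMod p) : d ≠ 0 → NF4a (p : ZMod (p ^ 2)) 0 1 d
  | b2 : NF4a 0 0 1 1
  | b3 (a : ZMod p) : Sq0 a → NF4a ((p * a.val : ℕ) : ZMod (p ^ 2)) 0 0 1
  | b4 (b c : ZMod p) : Pt b c → b + c ≠ 0 → NF4a 0 b c 0
  | b5 (b : ZMod p) : Bit b → NF4a 0 b (-b) 0
  | b6 (b : ZMod p) : Bit b → NF4a (p : ZMod (p ^ 2)) b (-b) 0

/-- Normal forms with table `tab4b`. -/
inductive NF4b : ZMod p → ZMod p → ZMod p → ZMod p → Prop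
  | a1 (c : ZMod p) : NF4b 1 c 0 1
  | a2 (c : ZMod p) : (c = 0 ∨ KRep p 3 c) → NF4b 0 c 0 1
  | b1 (d : ZMod p) : NF4b 1 1 d 0
  | b2 (d : ZMod p) : Sq0 d → NF4b 1 0 d 0
  | b3 (d : ZMod p) : Sq0 d → NF4b 0 0 d 0
  | b4 (d : ZMod p) : (d = 0 ∨ KRep p 4 d) → NF4b 0 1 d 0

/-- Normal forms with table `tab5i`. -/
inductive NF5i : ZMod p → ZMod p → ZMod p → Prop
  | a1 (α : ZMod p) : NF5i α 1 1
  | a2 (α : ZMod p) : Sq0 α → NF5i α 0 1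
  | a3 (α : ZMod p) : Bit α → NF5i α 1 0
  | a4 : NF5i 1 0 0

/-- Normal forms with table `tab5a`. -/
inductive NF5a : ZMod p → ZMod p → ZMod p → Prop
  | a1 : NF5a 1 0 0
  | a2 (m : ZMod p) : KRep p 2 m → NF5a 0 m 0
  | a3 : p = 2 → NF5a 0 1 1
  | a4 (n : ZMod p) : (n = 0 ∨ KRep p 3 n) → NF5a 0 0 n

/-- Normal forms with table `tab5b`. -/
inductive NF5b : ZMod p → ZMod p → Prop
  | a1 : NF5b 1 0
  | a2 : NF5b 0 1
  | a3 : NF5b 0 0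

/-- `p g_0 = g_3`, `p g_1 = p g_2 = 0`. -/
def pi31 : Fin 3 → ZMod p := ![1, 0, 0]

/-- `p g_0 = g_2`, `p g_1 = 0`. -/
def pi3b : Fin 2 → Fin 2 → ZMod p := ![![1, 0], ![0, 0]]

/-- `p g_0 = g_2`, `p g_1 = g_3`. -/
def pi3c : Fin 2 → Fin 2 → ZMod p := ![![1, 0], ![0, 1]]

/-- The list of tables. -/
inductive Listed (p : ℕ) : Tab → Prop
  | null : Listed p (tab31 (p := p) 0 0)
  | l2a (B : Fin 3 → Fin 3 → ZMod p) : NF2a B → Listed p (tab31 0 B)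
  | l2b (B : Fin 3 → Fin 3 → ZMod p) : NF2b B → Listed p (tab31 pi31 B)
  | l3a (B : Fin 2 → Fin 2 → Fin 2 → ZMod p) : NF3a B → Listed p (tab22 0 B)
  | l3b (B : Fin 2 → Fin 2 → Fin 2 → ZMod p) : NF3b B → Listed p (tab22 pi3b B)
  | l3c (B : Fin 2 → Fin 2 → Fin 2 → ZMod p) : NF3c B → Listed p (tab22 pi3c B)
  | l4a (L : ZMod (p ^ 2)) (b c d : ZMod p) : NF4a L b c d → Listed p (tab4a L b c d)
  | l4b (b c d e : ZMod p) : NF4b b c d e → Listed p (tab4b b c d e)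
  | l5i (α β γ : ZMod p) : NF5i α β γ → Listed p (tab5i α β γ)
  | l5a (l m n : ZMod p) : NF5a l m n → Listed p (tab5a l m n)
  | l5b (c d : ZMod p) : NF5b c d → Listed p (tab5b c d)

end Pool.NR
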