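import Pool.Agent.H97.NR.Stmts

/-! Assembly, part 1: normal forms exist and are unique in every type. -/

namespace Pool.NR

/-- Existence of normal forms, `T2a`. -/
def EX2aStmt : Prop := ∀ (p : ℕ) [Fact p.Prime] (B : Fin 3 → Fin 3 → ZMod p), B ≠ 0 →
  ∃ B', NF2a B' ∧ Eq2a B B'

theorem ex2a (hA : A2AStmt) (hS : A2SStmt) (hK : A2KStmt) (hM : A2MStmt) (hE : A2EStmt)
    (hN : A2NStmt) (hQ : Q2aStmt) : EX2aStmt := by
  intro p _ B hB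
  by_cases hs : Sym3 B
  · by_cases ha : Alt3 B
    · exact ⟨_, NF2a.alt, hA p B hB ha⟩
    · obtain ⟨B', h1, h2⟩ := hS p B ha hs
      exact ⟨B', NF2a.s B' h1, h2⟩
  · by_cases ha : Alt3 B
    · exact ⟨_, NF2a.alt, hA p B hB ha⟩
    obtain ⟨B1, h1, h2, h3, h4⟩ := hK p B hs
    by_cases h0 : B1 0 0 = 0
    · by_cases h5 : B1 0 1 ≠ 0 ∨ B1 0 2 ≠ 0
      · obtain ⟨B', h6, h7⟩ := hN p B1 h2 h3 h4 h0 h5
        exact ⟨B', NF2a.n B' h6, (hQ p).2.2 _ _ _ h1 h7⟩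
      · push Not at h5
        have e : B1 = ![![0, 0, 0], ![0, B1 1 1, B1 1 2], ![0, B1 2 1, B1 2 2]] := by
          funext i j
          fin_cases i <;> fin_cases j <;> simp [h0, h5.1, h5.2, ← h2, ← h3]
        have hna : ¬ Alt3 B1 := by
          intro h
          apply ha
          obtain ⟨g, r, hg, hr, he⟩ := (hQ p).2.1 _ _ h1
          constructor
          · intro i
            have := he i i
            have h8 : ∑ k, ∑ l, g k i * g l i * B1 k l = 0 := by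
              simp only [Fin.sum_univ_three]
              rw [h.1 0, h.1 1, h.1 2, h.2 1 0, h.2 2 0, h.2 2 1]
              ring
            rw [h8] at this
            exact (mul_eq_zero.1 this).resolve_left hr
          · intro i j
            have h9 := he i j
            have h10 := he j i
            have h8 : ∑ k, ∑ l, g k i * g l j * B1 k l = - ∑ k, ∑ l, g k j * g l i * B1 k l := by
              simp only [Fin.sum_univ_three]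
              rw [h.1 0, h.1 1, h.1 2, h.2 1 0, h.2 2 0, h.2 2 1]
              ring
            rw [← h9, ← h10, ← mul_neg] at h8
            exact mul_left_cancel₀ hr h8
        rw [e] at hna h4
        obtain ⟨B', h6, h7⟩ := hM p (B1 1 1) (B1 1 2) (B1 2 1) (B1 2 2) (by simpa using h4) hna
        rw [← e] at h7
        exact ⟨B', NF2a.m B' h6, (hQ p).2.2 _ _ _ h1 h7⟩
    · obtain ⟨B', h6, h7⟩ := hE p B1 h2 h3 h4 h0
      exact ⟨B', NF2a.e B' h6, (hQ p).2.2 _ _ _ h1 h7⟩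

/-- Uniqueness of normal forms, `T2a`. -/
def UN2aStmt : Prop := ∀ (p : ℕ) [Fact p.Prime] (B B' : Fin 3 → Fin 3 → ZMod p),
  NF2a B → NF2a B' → Eq2a B B' → B = B'

theorem un2a (hS : U2SStmt) (hM : U2MStmt) (hE : U2EStmt) (hN : U2NStmt) (hC : U2CStmt) :
    UN2aStmt := by
  intro p _ B B' h h' e
  rcases hC p B B' h h' e with h1 | ⟨h1, h2⟩ | ⟨h1, h2⟩ | ⟨h1, h2⟩ | ⟨h1, h2⟩
  · exact h1
  · exact hS p B B' h1 h2 e
  · exact hM p B B' h1 h2 e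
  · exact hE p B B' h1 h2 e
  · exact hN p B B' h1 h2 e

/-- Existence of normal forms, `T2b`. -/
def EX2bStmt : Prop := ∀ (p : ℕ) [Fact p.Prime] (B : Fin 3 → Fin 3 → ZMod p),
  ∃ B', NF2b B' ∧ Eq2b B B'

theorem ex2b (hX : B2XStmt) (hO : B2OStmt) (hD : B2DStmt) (hE : B2EStmt) (hJ : B2JStmt)
    (hM : B2MStmt) (hK : B2KStmt) (hS : B2SStmt) (hQ : Q2bStmt) : EX2bStmt := by
  intro p _ B
  obtain ⟨a, b1, b2, c1, c2, m11, m12, m21, m22, hm, he⟩ := hX p B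
  rcases hm with ⟨e1, e2, e3, e4⟩ | ⟨e1, e2, e3, e4⟩ | ⟨e1, e2, e3, e4⟩ | ⟨e1, e2, e3, e4⟩ |
    ⟨e1, e2, e3, e4, e5⟩ | ⟨e0, e1, e2, e3, e4⟩ | ⟨e1, e2, e3, e4⟩
  · subst e1 e2 e3 e4
    obtain ⟨B', h1, h2⟩ := hO p a b1 b2 c1 c2
    exact ⟨B', NF2b.o B' h1, (hQ p).2.2 _ _ _ he h2⟩
  · subst e1 e2 e3 e4
    obtain ⟨B', h1, h2⟩ := hD p a b1 b2 c1 c2
    exact ⟨B', NF2b.d B' h1, (hQ p).2.2 _ _ _ he h2⟩
  · subst e1 e2 e3 e4
    obtain ⟨B', h1, h2⟩ := hE p a b1 b2 c1 c2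
    exact ⟨B', NF2b.e B' h1, (hQ p).2.2 _ _ _ he h2⟩
  · subst e1 e2 e3 e4
    obtain ⟨B', h1, h2⟩ := hJ p a b1 b2 c1 c2
    exact ⟨B', NF2b.j B' h1, (hQ p).2.2 _ _ _ he h2⟩
  · subst e1 e2 e3
    obtain ⟨B', h1, h2⟩ := hM p a b1 b2 c1 c2 m22 e4 e5
    exact ⟨B', NF2b.m B' h1, (hQ p).2.2 _ _ _ he h2⟩
  · subst e1 e2 e3 e4
    obtain ⟨B', h1, h2⟩ := hK p a b1 b2 c1 c2 e0
    exact ⟨B', NF2b.k B' h1, (hQ p).2.2 _ _ _ he h2⟩
  · subst e1 e2 e3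
    obtain ⟨B', h1, h2⟩ := hS p a b1 b2 c1 c2 m22 e4
    exact ⟨B', NF2b.s B' h1, (hQ p).2.2 _ _ _ he h2⟩

/-- Uniqueness of normal forms, `T2b`. -/
def UN2bStmt : Prop := ∀ (p : ℕ) [Fact p.Prime] (B B' : Fin 3 → Fin 3 → ZMod p),
  NF2b B → NF2b B' → Eq2b B B' → B = B'

theorem un2b (hO : V2OStmt) (hD : V2DStmt) (hE : V2EStmt) (hJ : V2JStmt) (hM : V2MStmt)
    (hK : V2KStmt) (hS : V2SStmt) (hC : V2CStmt) : UN2bStmt := by
  intro p _ B B' h h' e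
  rcases hC p B B' h h' e with ⟨h1, h2⟩ | ⟨h1, h2⟩ | ⟨h1, h2⟩ | ⟨h1, h2⟩ | ⟨h1, h2⟩ |
    ⟨h1, h2⟩ | ⟨h1, h2⟩
  · exact hO p B B' h1 h2 e
  · exact hD p B B' h1 h2 e
  · exact hE p B B' h1 h2 e
  · exact hJ p B B' h1 h2 e
  · exact hM p B B' h1 h2 e
  · exact hK p B B' h1 h2 e
  · exact hS p B B' h1 h2 e

/-- Existence of normal forms, `T3a`. -/
def EX3aStmt : Prop := ∀ (p : ℕ) [Fact p.Prime] (B : Fin 2 → Fin 2 → Fin 2 → ZMod p), LI2 B →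
  ∃ B', NF3a B' ∧ Eq3a B B'

theorem ex3a (hC : C3CStmt) (hK : C3KStmt) (hX : C3XStmt) (hH : C3HStmt) (hN : C3NStmt)
    (hP : C3PStmt) (hQ : Q3aStmt) : EX3aStmt := by
  intro p _ B hB
  by_cases hs : ∀ l, B l 0 1 = B l 1 0
  · obtain ⟨B', h1, h2⟩ := hC p B hB hs
    exact ⟨B', NF3a.c B' h1, h2⟩
  · obtain ⟨A, C, D, E, hne, h⟩ := hK p B hB hs
    rcases h with h | h | ⟨hp, s, hs1, hs2, h⟩ | ⟨hp, h⟩
    · obtain ⟨B', h1, h2⟩ := hX p A C D E hne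
      exact ⟨B', NF3a.x B' h1, (hQ p).2.2 _ _ _ h h2⟩
    · obtain ⟨B', h1, h2⟩ := hH p A C D E hne
      exact ⟨B', NF3a.h B' h1, (hQ p).2.2 _ _ _ h h2⟩
    · obtain ⟨B', h1, h2⟩ := hN p s A C D E hne hp hs1 hs2
      exact ⟨B', NF3a.n B' h1, (hQ p).2.2 _ _ _ h h2⟩
    · obtain ⟨B', h1, h2⟩ := hP p A C D E hne hp
      exact ⟨B', NF3a.n B' h1, (hQ p).2.2 _ _ _ h h2⟩

/-- Uniqueness of normal forms, `T3a`. -/
def UN3aStmt : Prop := ∀ (p : ℕ) [Fact p.Prime] (B B' : Fin 2 → Fin 2 → Fin 2 → ZMod p),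
  NF3a B → NF3a B' → Eq3a B B' → B = B'

theorem un3a (hC : W3CStmt) (hX : W3XStmt) (hH : W3HStmt) (hN : W3NStmt) (hD : W3DStmt) :
    UN3aStmt := by
  intro p _ B B' h h' e
  rcases hD p B B' h h' e with ⟨h1, h2⟩ | ⟨h1, h2⟩ | ⟨h1, h2⟩ | ⟨h1, h2⟩
  · exact hC p B B' h1 h2 e
  · exact hX p B B' h1 h2 e
  · exact hH p B B' h1 h2 e
  · exact hN p B B' h1 h2 e

/-- Existence of normal forms, `T3b`. -/
def EX3bStmt : Prop := ∀ (p : ℕ) [Fact p.Prime] (B : Fin 2 → Fin 2 → Fin 2 → ZMod p), B 1 ≠ 0 →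
  ∃ B', NF3b B' ∧ Eq3b B B'

theorem ex3b (hA : D3AStmt) (hG : D3GStmt) (hB : D3BStmt) (hQ : D3QStmt) (hT : D3TStmt)
    (hU : D3UStmt) : EX3bStmt := by
  intro p _ B h0
  by_cases h1 : B 1 1 1 = 0
  · by_cases h2 : B 1 0 1 + B 1 1 0 = 0
    · by_cases h3 : B 1 0 1 = 0
      · have h4 : B 1 1 0 = 0 := by rwa [h3, zero_add] at h2
        have h5 : B 1 0 0 ≠ 0 := by
          intro h5
          apply h0
          funext i j
          fin_cases i <;> fin_cases j <;> simp [h1, h3, h4, h5]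
        obtain ⟨B', h6, h7⟩ := hU p B h1 h3 h4 h5
        exact ⟨B', NF3b.u B' h6, h7⟩
      · by_cases h4 : B 1 0 0 = 0
        · obtain ⟨B', h6, h7⟩ := hQ p B h1 h2 h3 h4
          exact ⟨B', NF3b.q B' h6, h7⟩
        · obtain ⟨B', h6, h7⟩ := hT p B h1 h2 h3 h4
          exact ⟨B', NF3b.t B' h6, h7⟩
    · obtain ⟨B', h6, h7⟩ := hB p B h1 h2
      exact ⟨B', NF3b.b B' h6, h7⟩
  · by_cases h2 : B 1 0 1 = B 1 1 0
    · obtain ⟨B', h6, h7⟩ := hG p B h1 h2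
      exact ⟨B', NF3b.a2 B' h6, h7⟩
    · obtain ⟨B', h6, h7⟩ := hA p B h1 h2
      exact ⟨B', NF3b.a1 B' h6, h7⟩

/-- Uniqueness of normal forms, `T3b`. -/
def UN3bStmt : Prop := ∀ (p : ℕ) [Fact p.Prime] (B B' : Fin 2 → Fin 2 → Fin 2 → ZMod p),
  NF3b B → NF3b B' → Eq3b B B' → B = B'

theorem un3b (hA : X3AStmt) (hG : X3GStmt) (hB : X3BStmt) (hQ : X3QStmt) (hT : X3TStmt)
    (hU : X3UStmt) (hC : X3CStmt) : UN3bStmt := by
  intro p _ B B' h h' e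
  rcases hC p B B' h h' e with ⟨h1, h2⟩ | ⟨h1, h2⟩ | ⟨h1, h2⟩ | ⟨h1, h2⟩ | ⟨h1, h2⟩ | ⟨h1, h2⟩
  · exact hA p B B' h1 h2 e
  · exact hG p B B' h1 h2 e
  · exact hB p B B' h1 h2 e
  · exact hQ p B B' h1 h2 e
  · exact hT p B B' h1 h2 e
  · exact hU p B B' h1 h2 e

/-- Existence of normal forms, `T3c`. -/
def EX3cStmt : Prop := ∀ (p : ℕ) [Fact p.Prime] (B : Fin 2 → Fin 2 → Fin 2 → ZMod p),
  ∃ B', NF3c B' ∧ Eq3c B B'

theorem ex3c (hG : E3GStmt) (hK : E3KStmt) (hL : E3LStmt) (hZ : E3ZStmt) (hR : E3RStmt)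
    (hS : E3SStmt) (hI : E3IStmt) (hQ : Q3cStmt) : EX3cStmt := by
  intro p _ B
  by_cases h1 : tr1 B 0 * tr2 B 1 = tr1 B 1 * tr2 B 0
  · by_cases h2 : tr1 B = 0 ∧ tr2 B = 0
    · obtain ⟨a, c, d, e, rfl⟩ := hZ p B h2.1 h2.2
      by_cases h3 : ∃ x y : ZMod p, (x ≠ 0 ∨ y ≠ 0) ∧
          - d * x ^ 3 + 3 * a * x ^ 2 * y - 3 * e * x * y ^ 2 + c * y ^ 3 = 0
      · obtain ⟨x, y, h4, h5⟩ := h3
        obtain ⟨a', d', e', h6⟩ := hS p a c d e x y h4 h5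
        obtain ⟨B', h7, h8⟩ := hR p a' d' e'
        exact ⟨B', NF3c.z B' h7, (hQ p).2.2 _ _ _ h6 h8⟩
      · push Not at h3
        obtain ⟨B', h7, h8⟩ := hI p a c d e (by
          intro x y h
          by_contra hc
          exact h3 x y (by tauto) h)
        exact ⟨B', NF3c.z B' h7, h8⟩
    · obtain ⟨α, β, a, c, d, e, h3, h4⟩ := hK p B h1 h2
      obtain ⟨B', h7, h8⟩ := hL p α β a c d e h3
      exact ⟨B', NF3c.l B' h7, (hQ p).2.2 _ _ _ h4 h8⟩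
  · obtain ⟨B', h7, h8⟩ := hG p B h1
    exact ⟨B', NF3c.g B' h7, h8⟩

/-- Uniqueness of normal forms, `T3c`. -/
def UN3cStmt : Prop := ∀ (p : ℕ) [Fact p.Prime] (B B' : Fin 2 → Fin 2 → Fin 2 → ZMod p),
  NF3c B → NF3c B' → Eq3c B B' → B = B'

theorem un3c (hG : Y3GStmt) (hL : Y3LStmt) (hZ : Y3ZStmt) (hC : Y3CStmt) : UN3cStmt := by
  intro p _ B B' h h' e
  rcases hC p B B' h h' e with ⟨h1, h2⟩ | ⟨h1, h2⟩ | ⟨h1, h2⟩
  · exact hG p B B' h1 h2 e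
  · exact hL p B B' h1 h2 e
  · exact hZ p B B' h1 h2 e

end Pool.NR
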