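import Pool.Agent.H97.NR.Fin1

/-! Assembly, part 2: every nilpotent ring of order `p ^ 4` has exactly one listed table. -/

set_option linter.unusedVariables false
set_option linter.constructorNameAsVariable false

namespace Pool.NR

universe u v

theorem nf2a_ne {p : ℕ} [Fact p.Prime] {B : Fin 3 → Fin 3 → ZMod p} (h : NF2a B) : B ≠ 0 := by
  intro h0
  subst h0
  generalize hB : (0 : Fin 3 → Fin 3 → ZMod p) = B at h
  have e00 : B 0 0 = 0 := by rw [← hB]; rfl
  have e01 : B 0 1 = 0 := by rw [← hB]; rfl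
  clear hB
  cases h with
  | alt => simp at e01
  | s B h => cases h <;> simp at e00
  | m B h => cases h; simp at e00
  | e B h => cases h <;> simp at e00
  | n B h => cases h <;> simp at e01

theorem pi31_ne {p : ℕ} [Fact p.Prime] : (pi31 : Fin 3 → ZMod p) ≠ 0 := by
  intro h
  have := congrFun h 0
  simp [pi31] at this

theorem surj3a {p : ℕ} [Fact p.Prime] {B : Fin 2 → Fin 2 → Fin 2 → ZMod p} (h : NF3a B) :
    Surj22 0 B := by
  intro c _ hc
  have h00 := hc 0 0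
  have h01 := hc 0 1
  have h10 := hc 1 0
  have h11 := hc 1 1
  have key : c 0 = 0 ∧ c 1 = 0 := by
    cases h with
    | c h =>
      cases h <;> simp [T22, Fin.sum_univ_two] at h00 h01 h10 h11 <;> simp_all
    | x h =>
      cases h <;> simp [T22, Fin.sum_univ_two] at h00 h01 h10 h11 <;> simp_all
    | h h =>
      cases h with
      | h1 => simp [T22, Fin.sum_univ_two] at h00 h01 h10 h11; simp_all
      | h2 m hm => simp [T22, Fin.sum_univ_two] at h00 h01 h10 h11; simp_all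
    | n h =>
      cases h with
      | n1 s a b h1 h2 h3 h4 =>
        simp [T22, Fin.sum_univ_two, -mul_eq_zero] at h00 h01 h10 h11
        have h2' : (2 : ZMod p) ≠ 0 := by
          intro h
          apply h1
          have := (ZMod.natCast_eq_zero_iff 2 p).1 (by exact_mod_cast h)
          exact (Nat.prime_dvd_prime_iff_eq (Fact.out : p.Prime) Nat.prime_two).1 this
        have hc1 : c 1 = 0 := by
          have : c 1 * 2 = 0 := by linear_combination h01 - h10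
          exact (mul_eq_zero.1 this).resolve_right h2'
        rw [hc1] at h00
        simp at h00
        exact ⟨h00, hc1⟩
      | n2 a h1 => simp [T22, Fin.sum_univ_two] at h00 h01 h10 h11; simp_all
  funext i
  fin_cases i
  · exact key.1
  · exact key.2

theorem surj3b {p : ℕ} [Fact p.Prime] {B : Fin 2 → Fin 2 → Fin 2 → ZMod p} (h : NF3b B) :
    Surj22 pi3b B := by
  intro c hp hc
  have hp0 := hp 0
  have h00 := hc 0 0
  have h01 := hc 0 1
  have h10 := hc 1 0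
  have h11 := hc 1 1
  simp [pi3b, Fin.sum_univ_two] at hp0
  have key : c 1 = 0 := by
    cases h with
    | a1 h =>
      cases h; simp [T22, Fin.sum_univ_two] at h00 h01 h10 h11; simp_all
    | a2 h =>
      cases h <;> simp [T22, Fin.sum_univ_two] at h00 h01 h10 h11 <;> simp_all
    | b h =>
      cases h <;> simp [T22, Fin.sum_univ_two] at h00 h01 h10 h11 <;> simp_all
    | q h =>
      cases h <;> simp [T22, Fin.sum_univ_two] at h00 h01 h10 h11 <;> simp_all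
    | t h =>
      cases h <;> simp [T22, Fin.sum_univ_two] at h00 h01 h10 h11 <;> simp_all
    | u h =>
      cases h <;> simp [T22, Fin.sum_univ_two] at h00 h01 h10 h11 <;> simp_all
  funext i
  fin_cases i
  · exact hp0
  · exact key

theorem surj3c {p : ℕ} [Fact p.Prime] (B : Fin 2 → Fin 2 → Fin 2 → ZMod p) :
    Surj22 pi3c B := by
  intro c hp _
  have hp0 := hp 0
  have hp1 := hp 1
  simp [pi3c, Fin.sum_univ_two] at hp0 hp1
  funext i
  fin_cases i
  · exact hp0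
  · exact hp1

theorem nf5i_ne {p : ℕ} [Fact p.Prime] {α β γ : ZMod p} (h : NF5i α β γ) :
    α ≠ 0 ∨ β ≠ 0 ∨ γ ≠ 0 := by
  cases h <;> simp

/-- Every nilpotent ring of order `p ^ 4` has a listed table. -/
def EXRStmt : Prop := ∀ (p : ℕ) [Fact p.Prime] (R : Type u) [NonUnitalRing R],
  Nat.card R = p ^ 4 → IsNilp R → ∃ T, Listed p T ∧ HasTab p R T

theorem exr (h2a : EX2aStmt) (h2b : EX2bStmt) (h3a : EX3aStmt) (h3b : EX3bStmt)
    (h3c : EX3cStmt) (hXC : XCStmt.{u}) (hX31 : X31Stmt.{u}) (hX22 : X22Stmt.{u})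
    (hX4 : X4Stmt.{u}) (hX5I : X5IStmt.{u}) (hX5J : X5JStmt.{u}) (hL1 : LK1Stmt)
    (hL2 : LK2Stmt) (hL3 : LK3Stmt) (hQT : QTStmt) (hR1 : RB1Stmt.{u}) (hR2 : RB2Stmt.{u})
    (hR4A : R4AStmt.{u}) (hR4B : R4BStmt.{u}) (hR5I : R5IStmt.{u}) (hR5A : R5AStmt.{u})
    (hR5B : R5BStmt.{u}) : EXRStmt.{u} := by
  intro p _ R _ hc hn
  have k31 : (Nat.card (Dd p (⊤ : AddSubgroup R)) = 1 ∨
      Nat.card (Dd p (⊤ : AddSubgroup R)) = p) → ∃ T, Listed p T ∧ HasTab p R T := by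
    intro h
    obtain ⟨π, B, hT⟩ := hX31 p R hc hn h
    obtain ⟨l1, l2, l3, l4⟩ := hL1 p
    by_cases hπ : π = 0
    · subst hπ
      by_cases hB : B = 0
      · subst hB
        exact ⟨_, Listed.null, hT⟩
      · obtain ⟨B', h1, h2⟩ := h2a p B hB
        exact ⟨_, Listed.l2a B' h1, hR1 p R 0 0 B B' hT ((l1 B B').2 h2)⟩
    · obtain ⟨B1, h1⟩ := l3 π B hπ
      obtain ⟨B', h2, h3⟩ := h2b p B1
      exact ⟨_, Listed.l2b B' h2, hR1 p R pi31 pi31 B1 B' (hR1 p R π pi31 B B1 hT h1)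
        ((l2 B1 B').2 h3)⟩
  rcases hXC p R hc hn with h | h | ⟨h, h' | h'⟩ | ⟨h, h' | h'⟩
  · exact k31 (Or.inl h)
  · exact k31 (Or.inr h)
  · obtain ⟨π, B, hs, hT⟩ := hX22 p R hc hn h h'
    obtain ⟨l1, l2, l3⟩ := hL2 p
    obtain ⟨m1, m2, m3⟩ := hL3 p
    by_cases hπ : π = 0
    · subst hπ
      have hLI : LI2 B := by
        intro c d hcd
        have := hs ![c, d] (by intro i; simp) (by
          intro i j
          simpa [Fin.sum_univ_two] using hcd i j)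
        exact ⟨by simpa using congrFun this 0, by simpa using congrFun this 1⟩
      obtain ⟨B', h1, h2⟩ := h3a p B hLI
      exact ⟨_, Listed.l3a B' h1, hR2 p R 0 0 B B' hT ((l1 B B').2 h2)⟩
    · rcases m1 π B hπ hs with ⟨B1, h1, h2⟩ | ⟨B1, h2⟩
      · obtain ⟨B', h3, h4⟩ := h3b p B1 h1
        exact ⟨_, Listed.l3b B' h3, hR2 p R pi3b pi3b B1 B' (hR2 p R π pi3b B B1 hT h2)
          ((l2 B1 B').2 h4)⟩
      · obtain ⟨B', h3, h4⟩ := h3c p B1
        exact ⟨_, Listed.l3c B' h3, hR2 p R pi3c pi3c B1 B' (hR2 p R π pi3c B B1 hT h2)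
          ((l3 B1 B').2 h4)⟩
  · rcases hX4 p R hc hn h h' with ⟨L, b, c, d, hT⟩ | ⟨b, c, d, e, hT⟩
    · obtain ⟨L', b', c', d', h1, h2⟩ := hR4A p R L b c d hT
      exact ⟨_, Listed.l4a L' b' c' d' h1, h2⟩
    · obtain ⟨b', c', d', e', h1, h2⟩ := hR4B p R b c d e hT
      exact ⟨_, Listed.l4b b' c' d' e' h1, h2⟩
  · obtain ⟨α, β, γ, h0, hT⟩ := hX5I p R hc hn h h'
    obtain ⟨α', β', γ', h1, h2⟩ := hR5I p R α β γ h0 hT
    exact ⟨_, Listed.l5i α' β' γ' h1, h2⟩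
  · rcases hX5J p R hc hn h h' with ⟨l, m, n, hT⟩ | ⟨c, d, hT⟩
    · obtain ⟨l', m', n', h1, h2⟩ := hR5A p R l m n hT
      exact ⟨_, Listed.l5a l' m' n' h1, h2⟩
    · obtain ⟨c', d', h1, h2⟩ := hR5B p R c d hT
      exact ⟨_, Listed.l5b c' d' h1, h2⟩

/-- The eight types of listed tables of a given ring, with the invariants. -/
inductive Kind (p : ℕ) (R : Type u) [NonUnitalRing R] : Tab → Prop
  | k0 : Nat.card (Dd p (⊤ : AddSubgroup R)) = 1 → Kind p R (tab31 (p := p) 0 0)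
  | k1 (π : Fin 3 → ZMod p) (B : Fin 3 → Fin 3 → ZMod p) :
      Nat.card (Dd p (⊤ : AddSubgroup R)) = p → (π ≠ 0 ∨ B ≠ 0) →
      (π = 0 ∧ NF2a B ∨ π = pi31 ∧ NF2b B) → Kind p R (tab31 π B)
  | k2 (π : Fin 2 → Fin 2 → ZMod p) (B : Fin 2 → Fin 2 → Fin 2 → ZMod p) :
      Nat.card (Dd p (⊤ : AddSubgroup R)) = p ^ 2 →
      Nat.card (Dd p (Dd p (⊤ : AddSubgroup R))) = 1 → Surj22 π B →
      (π = 0 ∧ NF3a B ∨ π = pi3b ∧ NF3b B ∨ π = pi3c ∧ NF3c B) → Kind p R (tab22 π B)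
  | k4a (L : ZMod (p ^ 2)) (b c d : ZMod p) :
      Nat.card (Dd p (⊤ : AddSubgroup R)) = p ^ 2 →
      Nat.card (Dd p (Dd p (⊤ : AddSubgroup R))) = p → (∃ x : R, p ^ 2 • x ≠ 0) →
      NF4a L b c d → Kind p R (tab4a L b c d)
  | k4b (b c d e : ZMod p) :
      Nat.card (Dd p (⊤ : AddSubgroup R)) = p ^ 2 →
      Nat.card (Dd p (Dd p (⊤ : AddSubgroup R))) = p → (∀ x : R, p ^ 2 • x = 0) →
      NF4b b c d e → Kind p R (tab4b b c d e)
  | k5i (α β γ : ZMod p) :
      Nat.card (Dd p (⊤ : AddSubgroup R)) = p ^ 3 →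
      Nat.card (Dd p (Dd p (⊤ : AddSubgroup R))) = p → NF5i α β γ → Kind p R (tab5i α β γ)
  | k5a (l m n : ZMod p) :
      Nat.card (Dd p (⊤ : AddSubgroup R)) = p ^ 3 →
      Nat.card (Dd p (Dd p (⊤ : AddSubgroup R))) = p ^ 2 →
      (∃ x : R, x * x ∉ Dd p (Dd p (⊤ : AddSubgroup R))) → NF5a l m n → Kind p R (tab5a l m n)
  | k5b (c d : ZMod p) :
      Nat.card (Dd p (⊤ : AddSubgroup R)) = p ^ 3 →
      Nat.card (Dd p (Dd p (⊤ : AddSubgroup R))) = p ^ 2 →
      (∀ x : R, x * x ∈ Dd p (Dd p (⊤ : AddSubgroup R))) → NF5b c d → Kind p R (tab5b c d)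

theorem kind_of (h31 : I31Stmt.{u}) (h22 : I22Stmt.{u}) (h4A : I4AStmt.{u}) (h4B : I4BStmt.{u})
    (h5I : I5IStmt.{u}) (h5A : I5AStmt.{u}) (h5B : I5BStmt.{u})
    (p : ℕ) [Fact p.Prime] (R : Type u) [NonUnitalRing R] (hc : Nat.card R = p ^ 4)
    (T : Tab) (hT : Listed p T) (h : HasTab p R T) : Kind p R T := by
  cases hT with
  | null => exact Kind.k0 ((h31 p R 0 0 hc h).2 rfl rfl)
  | l2a B hB =>
    exact Kind.k1 0 B ((h31 p R 0 B hc h).1 (Or.inr (nf2a_ne hB))) (Or.inr (nf2a_ne hB))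
      (Or.inl ⟨rfl, hB⟩)
  | l2b B hB =>
    exact Kind.k1 pi31 B ((h31 p R pi31 B hc h).1 (Or.inl pi31_ne)) (Or.inl pi31_ne)
      (Or.inr ⟨rfl, hB⟩)
  | l3a B hB =>
    obtain ⟨h1, h2⟩ := h22 p R 0 B hc (surj3a hB) h
    exact Kind.k2 0 B h1 h2 (surj3a hB) (Or.inl ⟨rfl, hB⟩)
  | l3b B hB =>
    obtain ⟨h1, h2⟩ := h22 p R pi3b B hc (surj3b hB) h
    exact Kind.k2 pi3b B h1 h2 (surj3b hB) (Or.inr (Or.inl ⟨rfl, hB⟩))
  | l3c B hB =>
    obtain ⟨h1, h2⟩ := h22 p R pi3c B hc (surj3c B) h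
    exact Kind.k2 pi3c B h1 h2 (surj3c B) (Or.inr (Or.inr ⟨rfl, hB⟩))
  | l4a L b c d hB =>
    obtain ⟨h1, h2, h3⟩ := h4A p R L b c d hc h
    exact Kind.k4a L b c d h1 h2 h3 hB
  | l4b b c d e hB =>
    obtain ⟨h1, h2, h3⟩ := h4B p R b c d e hc h
    exact Kind.k4b b c d e h1 h2 h3 hB
  | l5i α β γ hB =>
    obtain ⟨h1, h2⟩ := h5I p R α β γ hc (nf5i_ne hB) h
    exact Kind.k5i α β γ h1 h2 hB
  | l5a l m n hB =>
    obtain ⟨h1, h2, h3⟩ := h5A p R l m n hc h
    exact Kind.k5a l m n h1 h2 h3 hB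
  | l5b c d hB =>
    obtain ⟨h1, h2, h3⟩ := h5B p R c d hc h
    exact Kind.k5b c d h1 h2 h3 hB

/-- A nilpotent ring of order `p ^ 4` has at most one listed table. -/
def UNRStmt : Prop := ∀ (p : ℕ) [Fact p.Prime] (R : Type u) [NonUnitalRing R],
  Nat.card R = p ^ 4 → ∀ T T', Listed p T → Listed p T' → HasTab p R T → HasTab p R T' → T = T'

theorem unr (h2a : UN2aStmt) (h2b : UN2bStmt) (h3a : UN3aStmt) (h3b : UN3bStmt)
    (h3c : UN3cStmt) (h31 : I31Stmt.{u}) (h22 : I22Stmt.{u}) (h4A : I4AStmt.{u})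
    (h4B : I4BStmt.{u}) (h5I : I5IStmt.{u}) (h5A : I5AStmt.{u}) (h5B : I5BStmt.{u})
    (hL1 : LK1Stmt) (hL2 : LK2Stmt) (hL3 : LK3Stmt) (hR1 : RC1Stmt.{u}) (hR2 : RC2Stmt.{u})
    (s4A : S4AStmt.{u}) (s4B : S4BStmt.{u}) (s5I : S5IStmt.{u}) (s5A : S5AStmt.{u})
    (s5B : S5BStmt.{u}) : UNRStmt.{u} := by
  intro p _ R _ hc T T' hT hT' h h'
  have hp2 : 2 ≤ p := (Fact.out : p.Prime).two_le
  have n1 : (1 : ℕ) ≠ p := by omega
  have n2 : (1 : ℕ) ≠ p ^ 2 := by nlinarith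
  have n3 : (1 : ℕ) ≠ p ^ 3 := by
    have := Nat.pow_lt_pow_left (n := 3) (show 1 < p by omega) (by norm_num)
    omega
  have n4 : p ≠ p ^ 2 := by nlinarith
  have n5 : p ≠ p ^ 3 := by
    have : p ^ 1 < p ^ 3 := Nat.pow_lt_pow_right (by omega) (by norm_num)
    rw [pow_one] at this
    omega
  have n6 : p ^ 2 ≠ p ^ 3 := by
    have : p ^ 2 < p ^ 3 := Nat.pow_lt_pow_right (by omega) (by norm_num)
    omega
  have k := kind_of h31 h22 h4A h4B h5I h5A h5B p R hc T hT h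
  have k' := kind_of h31 h22 h4A h4B h5I h5A h5B p R hc T' hT' h'
  clear hT hT'
  cases k with
  | k0 c1 =>
    cases k' with
    | k0 _ => rfl
    | k1 π B d1 => exact absurd (c1.symm.trans d1) n1
    | k2 π B d1 => exact absurd (c1.symm.trans d1) n2
    | k4a L b c d d1 => exact absurd (c1.symm.trans d1) n2
    | k4b b c d e d1 => exact absurd (c1.symm.trans d1) n2
    | k5i a b c d1 => exact absurd (c1.symm.trans d1) n3
    | k5a l m n d1 => exact absurd (c1.symm.trans d1) n3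
    | k5b c d d1 => exact absurd (c1.symm.trans d1) n3
  | k1 π B c1 c2 c3 =>
    cases k' with
    | k0 d1 => exact absurd (d1.symm.trans c1) n1
    | k1 π' B' d1 d2 d3 =>
      have e := hR1 p R π π' B B' hc c2 h h'
      obtain ⟨l1, l2, l3, l4⟩ := hL1 p
      rcases c3 with ⟨r1, r2⟩ | ⟨r1, r2⟩ <;> rcases d3 with ⟨t1, t2⟩ | ⟨t1, t2⟩ <;> subst r1 t1
      · rw [h2a p B B' r2 t2 ((l1 B B').1 e)]
      · exact absurd ((l4 _ _ _ _ e).1.1 rfl) pi31_ne
      · exact absurd ((l4 _ _ _ _ e).1.2 rfl) pi31_ne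
      · rw [h2b p B B' r2 t2 ((l2 B B').1 e)]
    | k2 π B d1 => exact absurd (c1.symm.trans d1) n4
    | k4a L b c d d1 => exact absurd (c1.symm.trans d1) n4
    | k4b b c d e d1 => exact absurd (c1.symm.trans d1) n4
    | k5i a b c d1 => exact absurd (c1.symm.trans d1) n5
    | k5a l m n d1 => exact absurd (c1.symm.trans d1) n5
    | k5b c d d1 => exact absurd (c1.symm.trans d1) n5
  | k2 π B c1 c2 c3 c4 =>
    cases k' with
    | k0 d1 => exact absurd (d1.symm.trans c1) n2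
    | k1 π B d1 => exact absurd (d1.symm.trans c1) n4
    | k2 π' B' d1 d2 d3 d4 =>
      have e := hR2 p R π π' B B' hc c3 h h'
      obtain ⟨l1, l2, l3⟩ := hL2 p
      obtain ⟨m1, m2, m3⟩ := hL3 p
      have e0 : π = π' := m3 π π' B B' e
        (by rcases c4 with h | h | h
            · exact Or.inl h.1
            · exact Or.inr (Or.inl h.1)
            · exact Or.inr (Or.inr h.1))
        (by rcases d4 with h | h | h
            · exact Or.inl h.1
            · exact Or.inr (Or.inl h.1)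
            · exact Or.inr (Or.inr h.1))
      have b1 : (pi3b : Fin 2 → Fin 2 → ZMod p) ≠ 0 := by
        intro h; have := congrFun (congrFun h 0) 0; simp [pi3b] at this
      have b2 : (pi3c : Fin 2 → Fin 2 → ZMod p) ≠ 0 := by
        intro h; have := congrFun (congrFun h 0) 0; simp [pi3c] at this
      have b3 : (pi3b : Fin 2 → Fin 2 → ZMod p) ≠ pi3c := by
        intro h; have := congrFun (congrFun h 1) 1; simp [pi3b, pi3c] at this
      subst e0
      rcases c4 with ⟨r1, r2⟩ | ⟨r1, r2⟩ | ⟨r1, r2⟩ <;>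
        rcases d4 with ⟨t1, t2⟩ | ⟨t1, t2⟩ | ⟨t1, t2⟩ <;> subst r1
      · rw [h3a p B B' r2 t2 ((l1 B B').1 e)]
      · exact absurd t1.symm b1
      · exact absurd t1.symm b2
      · exact absurd t1 b1
      · rw [h3b p B B' r2 t2 ((l2 B B').1 e)]
      · exact absurd t1 b3
      · exact absurd t1 b2
      · exact absurd t1.symm b3
      · rw [h3c p B B' r2 t2 ((l3 B B').1 e)]
    | k4a L b c d d1 d2 => exact absurd (c2.symm.trans d2) n1
    | k4b b c d e d1 d2 => exact absurd (c2.symm.trans d2) n1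
    | k5i a b c d1 => exact absurd (c1.symm.trans d1) n6
    | k5a l m n d1 => exact absurd (c1.symm.trans d1) n6
    | k5b c d d1 => exact absurd (c1.symm.trans d1) n6
  | k4a L b c d c1 c2 c3 c4 =>
    cases k' with
    | k0 d1 => exact absurd (d1.symm.trans c1) n2
    | k1 π B d1 => exact absurd (d1.symm.trans c1) n4
    | k2 π B d1 d2 => exact absurd (d2.symm.trans c2) n1
    | k4a L' b' c' d' d1 d2 d3 d4 =>
      obtain ⟨e1, e2, e3, e4⟩ := s4A p R L L' b c d b' c' d' hc h h' c4 d4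
      rw [e1, e2, e3, e4]
    | k4b b c d e d1 d2 d3 =>
      obtain ⟨x, hx⟩ := c3
      exact absurd (d3 x) hx
    | k5i a b c d1 => exact absurd (c1.symm.trans d1) n6
    | k5a l m n d1 => exact absurd (c1.symm.trans d1) n6
    | k5b c d d1 => exact absurd (c1.symm.trans d1) n6
  | k4b b c d e c1 c2 c3 c4 =>
    cases k' with
    | k0 d1 => exact absurd (d1.symm.trans c1) n2
    | k1 π B d1 => exact absurd (d1.symm.trans c1) n4
    | k2 π B d1 d2 => exact absurd (d2.symm.trans c2) n1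
    | k4a L' b' c' d' d1 d2 d3 d4 =>
      obtain ⟨x, hx⟩ := d3
      exact absurd (c3 x) hx
    | k4b b' c' d' e' d1 d2 d3 d4 =>
      obtain ⟨e1, e2, e3, e4⟩ := s4B p R b c d e b' c' d' e' hc h h' c4 d4
      rw [e1, e2, e3, e4]
    | k5i a b c d1 => exact absurd (c1.symm.trans d1) n6
    | k5a l m n d1 => exact absurd (c1.symm.trans d1) n6
    | k5b c d d1 => exact absurd (c1.symm.trans d1) n6
  | k5i α β γ c1 c2 c3 =>
    cases k' with
    | k0 d1 => exact absurd (d1.symm.trans c1) n3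
    | k1 π B d1 => exact absurd (d1.symm.trans c1) n5
    | k2 π B d1 => exact absurd (d1.symm.trans c1) n6
    | k4a L' b' c' d' d1 => exact absurd (d1.symm.trans c1) n6
    | k4b b' c' d' e' d1 => exact absurd (d1.symm.trans c1) n6
    | k5i α' β' γ' d1 d2 d3 =>
      obtain ⟨e1, e2, e3⟩ := s5I p R α β γ α' β' γ' hc h h' c3 d3
      rw [e1, e2, e3]
    | k5a l m n d1 d2 => exact absurd (c2.symm.trans d2) n4
    | k5b c d d1 d2 => exact absurd (c2.symm.trans d2) n4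
  | k5a l m n c1 c2 c3 c4 =>
    cases k' with
    | k0 d1 => exact absurd (d1.symm.trans c1) n3
    | k1 π B d1 => exact absurd (d1.symm.trans c1) n5
    | k2 π B d1 => exact absurd (d1.symm.trans c1) n6
    | k4a L' b' c' d' d1 => exact absurd (d1.symm.trans c1) n6
    | k4b b' c' d' e' d1 => exact absurd (d1.symm.trans c1) n6
    | k5i α' β' γ' d1 d2 d3 => exact absurd (d2.symm.trans c2) n4
    | k5a l' m' n' d1 d2 d3 d4 =>
      obtain ⟨e1, e2, e3⟩ := s5A p R l m n l' m' n' hc h h' c4 d4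
      rw [e1, e2, e3]
    | k5b c d d1 d2 d3 d4 =>
      obtain ⟨x, hx⟩ := c3
      exact absurd (d3 x) hx
  | k5b c d c1 c2 c3 c4 =>
    cases k' with
    | k0 d1 => exact absurd (d1.symm.trans c1) n3
    | k1 π B d1 => exact absurd (d1.symm.trans c1) n5
    | k2 π B d1 => exact absurd (d1.symm.trans c1) n6
    | k4a L' b' c' d' d1 => exact absurd (d1.symm.trans c1) n6
    | k4b b' c' d' e' d1 => exact absurd (d1.symm.trans c1) n6
    | k5i α' β' γ' d1 d2 d3 => exact absurd (d2.symm.trans c2) n4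
    | k5a l m n d1 d2 d3 d4 =>
      obtain ⟨x, hx⟩ := d3
      exact absurd (c3 x) hx
    | k5b c' d' d1 d2 d3 d4 =>
      obtain ⟨e1, e2⟩ := s5B p R c d c' d' hc h h' c4 d4
      rw [e1, e2]

/-- Listed tables are consistent. -/
theorem cons_listed (h1 : CO1Stmt) (h2 : CO2Stmt) (h3 : CO3Stmt) (h4 : CO4Stmt)
    (p : ℕ) [Fact p.Prime] (T : Tab) (h : Listed p T) : Cons p T := by
  cases h with
  | null => exact h1 p 0 0
  | l2a B _ => exact h1 p 0 B
  | l2b B _ => exact h1 p pi31 B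
  | l3a B _ => exact h2 p 0 B
  | l3b B _ => exact h2 p pi3b B
  | l3c B _ => exact h2 p pi3c B
  | l4a L b c d _ => exact (h3 p).1 L b c d
  | l4b b c d e _ => exact (h3 p).2 b c d e
  | l5i α β γ _ => exact (h4 p).1 α β γ
  | l5a l m n _ => exact (h4 p).2.1 l m n
  | l5b c d _ => exact (h4 p).2.2 c d

theorem hasTab_congr {p : ℕ} {R : Type u} {S : Type v} [NonUnitalRing R] [NonUnitalRing S]
    (e : R ≃+* S) {T : Tab} (h : HasTab p R T) : HasTab p S T := by
  obtain ⟨g, h1, h2, h3⟩ := h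
  refine ⟨fun i => e (g i), ?_, ?_, ?_⟩
  · have : Set.range (fun i => e (g i)) = (e.toAddEquiv.toAddMonoidHom : R → S) '' Set.range g := by
      rw [← Set.range_comp]; rfl
    rw [this, ← AddMonoidHom.map_closure, h1]
    exact AddSubgroup.map_top_of_surjective _ e.surjective
  · intro i
    rw [← map_nsmul, h2 i, map_sum]
    simp only [map_nsmul]
  · intro i j
    rw [← map_mul, h3 i j, map_sum]
    simp only [map_nsmul]

/-- The theorem from its parts. -/
theorem main_of (hEX : EXRStmt.{u}) (hUN : UNRStmt.{u}) (h1 : CO1Stmt) (h2 : CO2Stmt)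
    (h3 : CO3Stmt) (h4 : CO4Stmt) (hRQ : RQStmt) (hISO : ISOStmt.{u, 0}) : MainStmt.{u} := by
  intro p _
  have hR : ∀ T : {T : Tab // Listed p T}, ∃ (R : Type) (_ : NonUnitalRing R),
      Nat.card R = p ^ 4 ∧ IsNilp R ∧ HasTab p R T.1 := fun T =>
    hRQ p T.1 (cons_listed h1 h2 h3 h4 p T.1 T.2)
  choose N iN hN using hR
  refine ⟨N, iN, hN, ?_⟩
  intro R _ hc hn
  obtain ⟨T, hT, hR⟩ := hEX p R hc hn
  refine ⟨⟨T, hT⟩, ?_, ?_⟩
  · exact hISO p R (N ⟨T, hT⟩) T hc (hN ⟨T, hT⟩).1 (cons_listed h1 h2 h3 h4 p T hT).1 hR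
      (hN ⟨T, hT⟩).2.2
  · rintro ⟨T', hT'⟩ ⟨e⟩
    have := hasTab_congr e.symm (hN ⟨T', hT'⟩).2.2
    exact Subtype.ext (hUN p R hc T' T hT' hT this hR)

end Pool.NR
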