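import Pool.Agent.H97.NR.Fin2
import Pool.Agent.H97.NR.StmtsC

/-! Assembly, part 3: final form of the classification. -/

set_option linter.unusedVariables false

namespace Pool.NR

universe u

/-- The classification, final form. -/
def FinalStmt : Prop := ∀ (p : ℕ) [Fact p.Prime],
  (Nat.card {T : Tab // Listed p T} = if p = 2 then 221 else if p = 3 then 429 else
    p ^ 4 + 2 * p ^ 3 + 8 * p ^ 2 + 41 * p + 96 + 2 * Nat.gcd 3 (p - 1) + Nat.gcd 4 (p - 1)) ∧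
  ∃ (N : {T : Tab // Listed p T} → Type) (_ : ∀ T, NonUnitalRing (N T)),
    (∀ T, Nat.card (N T) = p ^ 4 ∧ IsNilp (N T)) ∧
    ∀ (R : Type u) [NonUnitalRing R], Nat.card R = p ^ 4 →
      (∀ T, Nonempty (R ≃+* N T) ↔ HasTab p R T.1) ∧
      (IsNilp R → ∃! T, Nonempty (R ≃+* N T))

theorem final_of (hEX : EXRStmt.{u}) (hUN : UNRStmt.{u}) (h1 : CO1Stmt) (h2 : CO2Stmt)
    (h3 : CO3Stmt) (h4 : CO4Stmt) (hRQ : RQStmt) (hISO : ISOStmt.{u, 0}) (hNUM : NUMStmt) :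
    FinalStmt.{u} := by
  intro p _
  refine ⟨hNUM p, ?_⟩
  have hR : ∀ T : {T : Tab // Listed p T}, ∃ (R : Type) (_ : NonUnitalRing R),
      Nat.card R = p ^ 4 ∧ IsNilp R ∧ HasTab p R T.1 := fun T =>
    hRQ p T.1 (cons_listed h1 h2 h3 h4 p T.1 T.2)
  choose N iN hN using hR
  refine ⟨N, iN, fun T => ⟨(hN T).1, (hN T).2.1⟩, ?_⟩
  intro R _ hc
  have key : ∀ T, Nonempty (R ≃+* N T) ↔ HasTab p R T.1 := by
    intro T
    constructor
    · rintro ⟨e⟩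
      exact hasTab_congr e.symm (hN T).2.2
    · intro h
      exact hISO p R (N T) T.1 hc (hN T).1 (cons_listed h1 h2 h3 h4 p T.1 T.2).1 h (hN T).2.2
  refine ⟨key, fun hn => ?_⟩
  obtain ⟨T, hT, hR⟩ := hEX p R hc hn
  refine ⟨⟨T, hT⟩, (key ⟨T, hT⟩).2 hR, ?_⟩
  rintro ⟨T', hT'⟩ he
  exact Subtype.ext (hUN p R hc T' T hT' hT ((key ⟨T', hT'⟩).1 he) hR)

end Pool.NR
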